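import Pool.Agent.X279.AB.Unit

/-!
# Morphisms from the unit to Kimura-finite objects of an abelian category
-/

set_option autoImplicit false
set_option linter.unusedSectionVars false
set_option linter.unusedSimpArgs false

open CategoryTheory Limits MonoidalCategory
open Pool.Agent.Y112.SR Pool.Agent.Y112.KD Pool.Agent.X264.KF
open Pool.Agent.Y116.MT (tr)

namespace Pool.Agent.X279.AB

universe v u w

section

variable {C : Type u} [Category.{v} C] [MonoidalCategory C] [SymmetricCategory C]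
  [Preadditive C] [Linear ℚ C] [MonoidalPreadditive C] [MonoidalLinear ℚ C]

lemma sw_kill {M Q Y : C} (z : 𝟙_ C ⟶ M) (p : M ⟶ Q) (hzp : z ≫ p = 0) (X : C) (x : X ⟶ Y) :
    ((X ⊗ M) ◁ z) ≫ sw X M ≫ ((x ⊗ₘ p) ▷ M) = 0 := by
  have h1 : M ◁ z ≫ (β_ M M).hom = (β_ M (𝟙_ C)).hom ≫ z ▷ M := by
    rw [BraidedCategory.braiding_naturality_right]
  have h2 : ((X ⊗ M) ◁ z) = (α_ X M (𝟙_ C)).hom ≫ X ◁ (M ◁ z) ≫ (α_ X M M).inv := by simp
  have h3 : (α_ X M M).inv ≫ ((x ⊗ₘ p) ▷ M) = (X ◁ (p ▷ M)) ≫ (x ▷ (Q ⊗ M)) ≫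
      (α_ Y Q M).inv := by
    rw [MonoidalCategory.tensorHom_def']
    simp
  have h4 : (z ▷ M) ≫ (p ▷ M) = 0 := by
    rw [← comp_whiskerRight, hzp, MonoidalPreadditive.zero_whiskerRight]
  rw [h2, sw]
  simp only [Category.assoc, Iso.inv_hom_id_assoc]
  rw [h3, ← MonoidalCategory.whiskerLeft_comp_assoc, h1]
  have h5 : X ◁ ((β_ M (𝟙_ C)).hom ≫ z ▷ M) ≫ X ◁ (p ▷ M) = 0 := by
    rw [← MonoidalCategory.whiskerLeft_comp, Category.assoc, h4, comp_zero,
      MonoidalPreadditive.whiskerLeft_zero]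
  rw [reassoc_of% h5]
  simp

/-- The (anti)symmetrization of a product with a factor from the unit, modulo this factor. -/
lemma asym_whisker_unit {η : ℚ} (hη : η * η = 1) {M Q : C} (z : 𝟙_ C ⟶ M) (p : M ⟶ Q)
    (hzp : z ≫ p = 0) (n : ℕ) :
    (tp M n ◁ z) ≫ (((n + 1 : ℕ) : ℚ) • asym η M (n + 1)) ≫ (tpm p n ▷ M) =
      (tpm p n ≫ asym η Q n) ▷ (𝟙_ C) ≫ (tp Q n ◁ z) := by
  rw [Tn_asym hη]
  rcases n with - | n
  · simp only [Tn, Category.id_comp, asym_zero, Category.comp_id]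
    change (tp M 0 ◁ z) ≫ (𝟙 (tp M 0) ▷ M) ≫ (𝟙 (tp M 0) ▷ M) = (𝟙 (tp M 0) ▷ (𝟙_ C)) ≫ (tp Q 0 ◁ z)
    simp
  · have h1 : asym η M (n + 1) ▷ M ≫ tpm p (n + 1) ▷ M =
        tpm p (n + 1) ▷ M ≫ asym η Q (n + 1) ▷ M := by
      rw [← comp_whiskerRight, ← asym_nat, comp_whiskerRight]
    have h2 : ((tp M (n + 1)) ◁ z) ≫ (Tn η M n ▷ M) = (Tn η M n ▷ (𝟙_ C)) ≫ (tp M (n + 1) ◁ z) := by
      rw [whisker_exchange]
    have h3 : ((tp M n ⊗ M) ◁ z) ≫ sw (tp M n) M ≫ (tpm p (n + 1) ▷ M) = 0 :=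
      sw_kill z p hzp (tp M n) (tpm p n)
    rw [Tn_succ]
    simp only [Preadditive.add_comp, Preadditive.comp_add, Linear.smul_comp, Linear.comp_smul,
      Category.id_comp, Category.assoc]
    rw [h1]
    have h4 : ((tp M (n + 1)) ◁ z) ≫ (Tn η M n ▷ M) ≫ sw (tp M n) M ≫
        tpm p (n + 1) ▷ M ≫ asym η Q (n + 1) ▷ M = 0 := by
      rw [reassoc_of% h2]
      have h5 : (tp M (n + 1) ◁ z) ≫ sw (tp M n) M ≫ tpm p (n + 1) ▷ M ≫ asym η Q (n + 1) ▷ M =
          0 := by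
        have h6 := congrArg (fun y => y ≫ asym η Q (n + 1) ▷ M) h3
        simpa only [Category.assoc, zero_comp] using h6
      rw [h5, comp_zero]
    rw [h4, smul_zero, add_zero, ← comp_whiskerRight, whisker_exchange]

/-- the tensor power of a morphism from the unit -/
def tz {M : C} (z : 𝟙_ C ⟶ M) : ∀ n : ℕ, (𝟙_ C ⟶ tp M n)
  | 0 => 𝟙 _
  | n + 1 => (λ_ (𝟙_ C)).inv ≫ (tz z n ⊗ₘ z)

lemma tz_succ {M : C} (z : 𝟙_ C ⟶ M) (n : ℕ) : tz z (n + 1) = (λ_ (𝟙_ C)).inv ≫ (tz z n ⊗ₘ z) := rfl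

lemma tz_sw {M : C} (z : 𝟙_ C ⟶ M) (n : ℕ) : tz z (n + 2) ≫ sw (tp M n) M = tz z (n + 2) := by
  have h1 : sw (𝟙_ C) (𝟙_ C) = 𝟙 ((𝟙_ C ⊗ 𝟙_ C) ⊗ 𝟙_ C) := by
    rw [sw, braiding_tensorUnit_left, unitors_equal]
    simp
  have h2 : ((tz z n ⊗ₘ z) ⊗ₘ z) ≫ sw (tp M n) M = sw (𝟙_ C) (𝟙_ C) ≫ ((tz z n ⊗ₘ z) ⊗ₘ z) :=
    sw_nat (tz z n) z z
  have h3 : tz z (n + 2) = (λ_ (𝟙_ C)).inv ≫ ((λ_ (𝟙_ C)).inv ▷ (𝟙_ C)) ≫
      ((tz z n ⊗ₘ z) ⊗ₘ z) := by
    rw [tz_succ, tz_succ]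
    congr 1
    rw [← tensorHom_id, tensorHom_comp_tensorHom, Category.id_comp]
  rw [h3]
  simp only [Category.assoc]
  rw [h2, h1, Category.id_comp]

/-- the tensor powers of a morphism from the unit are symmetric -/
lemma tz_asym {M : C} (z : 𝟙_ C ⟶ M) (n : ℕ) : tz z n ≫ asym 1 M n = tz z n := by
  rcases n with - | n
  · simp [asym_zero]
  induction n with
  | zero => simp [asym_one]
  | succ n ih =>
    have h1 : tz z (n + 2) ≫ (asym 1 M (n + 1) ▷ M) = tz z (n + 2) := by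
      rw [tz_succ z (n + 1), Category.assoc, ← tensorHom_id, tensorHom_comp_tensorHom, ih,
        Category.comp_id]
    have hn : ((n + 1 : ℕ) : ℚ) + 1 ≠ 0 := by positivity
    have h2 : tz z (n + 2) ≫ sw (tp M n) M = tz z (n + 2) := tz_sw z n
    rw [asym_succ, Linear.comp_smul, Preadditive.comp_add, Linear.comp_smul, h1,
      reassoc_of% h1, reassoc_of% h2, h1, one_mul]
    have e2 : tz z (n + 2) + ((n + 1 : ℕ) : ℚ) • tz z (n + 2) =
        (((n + 1 : ℕ) : ℚ) + 1) • tz z (n + 2) := by module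
    rw [e2, smul_smul, inv_mul_cancel₀ hn, one_smul]

end

section

variable {C : Type u} [Category.{v} C] [Abelian C] [Linear ℚ C] [MonoidalCategory C]
  [MonoidalPreadditive C] [MonoidalLinear ℚ C] [SymmetricCategory C] [RightRigidCategory C]

lemma mono_tz {M : C} (z : 𝟙_ C ⟶ M) [Mono z] (n : ℕ) : Mono (tz z n) := by
  induction n with
  | zero => exact inferInstanceAs (Mono (𝟙 _))
  | succ n ih =>
    have h1 : Mono ((𝟙_ C) ◁ z) := mono_left _ z
    have h2 : Mono ((tz z n) ▷ M) := mono_right _ _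
    rw [tz_succ, MonoidalCategory.tensorHom_def']
    infer_instance

/-- There are no nonzero morphisms from the unit to an object killed by a symmetric power. -/
lemma eq_zero_of_odd (hU : UnitQ C) {B : C} {m : ℕ} (h : asym 1 B m = 0) (z : 𝟙_ C ⟶ B) :
    z = 0 := by
  by_contra hz
  have := mono_of_ne_zero hU z hz
  have h1 := mono_tz z m
  have h2 := tz_asym z m
  rw [h, comp_zero] at h2
  apply hU.ne
  rw [← cancel_mono (tz z m), ← h2]
  simp

lemma epi_tpm {M Q : C} (p : M ⟶ Q) [Epi p] (n : ℕ) : Epi (tpm p n) := by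
  induction n with
  | zero => exact inferInstanceAs (Epi (𝟙 _))
  | succ n ih =>
    change Epi (tpm p n ⊗ₘ p)
    have h1 : Epi ((tpm p n) ▷ M) := epi_right _ _
    have h2 : Epi ((tp Q n) ◁ p) := epi_left _ _
    rw [MonoidalCategory.tensorHom_def]
    infer_instance

/-- The quotient by a subobject which is isomorphic to the unit. -/
lemma kill_quot {η : ℚ} (hη : η * η = 1) {M Q : C} (z : 𝟙_ C ⟶ M) [Mono z] (p : M ⟶ Q) [Epi p]
    (hzp : z ≫ p = 0) {n : ℕ} (h : asym η M (n + 1) = 0) : asym η Q n = 0 := by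
  have h1 := asym_whisker_unit hη z p hzp n
  rw [h, smul_zero, zero_comp, comp_zero] at h1
  have h2 : Mono (tp Q n ◁ z) := mono_left _ z
  have h3 : (tpm p n ≫ asym η Q n) ▷ (𝟙_ C) = 0 := by
    rw [← cancel_mono (tp Q n ◁ z), ← h1, zero_comp]
  have h4 : tpm p n ≫ asym η Q n = 0 := by
    have h5 : (tpm p n ≫ asym η Q n) = (ρ_ _).inv ≫ ((tpm p n ≫ asym η Q n) ▷ (𝟙_ C)) ≫
        (ρ_ _).hom := by simp
    rw [h5, h3]
    simp
  have h6 := epi_tpm p n
  rw [← cancel_epi (tpm p n), h4, comp_zero]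

lemma exists_lift_unit {M : C} (z : 𝟙_ C ⟶ M) [Mono z] {X : C} (f : X ⟶ M)
    (h : f ≫ cokernel.π z = 0) : ∃ l : X ⟶ 𝟙_ C, l ≫ z = f := by
  have h2 := Abelian.monoIsKernelOfCokernel (Cofork.ofπ (cokernel.π z)
    (by simp) : CokernelCofork z) (cokernelIsCokernel z)
  obtain ⟨l, hl⟩ := KernelFork.IsLimit.lift' h2 f h
  exact ⟨l, hl⟩

/-- The morphisms from the unit to an object killed by the exterior power of degree `n + 1`. -/
theorem bound_aux (hU : UnitQ C) (n : ℕ) : ∀ M : C, asym (-1) M (n + 1) = 0 →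
    Module.Finite ℚ (𝟙_ C ⟶ M) ∧ Module.finrank ℚ (𝟙_ C ⟶ M) ≤ n := by
  induction n with
  | zero =>
    intro M hM
    have h1 : Subsingleton (𝟙_ C ⟶ M) := by
      refine ⟨fun a b => ?_⟩
      have h2 : 𝟙 (tp M 1) = 0 := hM
      have h3 : ∀ a : 𝟙_ C ⟶ M, a = 0 := by
        intro a
        have h4 : a = a ≫ (λ_ M).inv ≫ 𝟙 (tp M 1) ≫ (λ_ M).hom := by
          rw [Category.id_comp]
          simp
        rw [h4, h2]
        simp
      rw [h3 a, h3 b]
    exact ⟨inferInstance, (Module.finrank_zero_of_subsingleton).le⟩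
  | succ n ih =>
    intro M hM
    by_cases h0 : ∀ z : 𝟙_ C ⟶ M, z = 0
    · have h1 : Subsingleton (𝟙_ C ⟶ M) := ⟨fun a b => by rw [h0 a, h0 b]⟩
      exact ⟨inferInstance, (Module.finrank_zero_of_subsingleton).le.trans (Nat.zero_le _)⟩
    · push Not at h0
      obtain ⟨z, hz⟩ := h0
      have hmz := mono_of_ne_zero hU z hz
      let p := cokernel.π z
      have hzp : z ≫ p = 0 := cokernel.condition z
      obtain ⟨hf, hr⟩ := ih _ (kill_quot (by norm_num) z p hzp hM)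
      let φ : (𝟙_ C ⟶ M) →ₗ[ℚ] (𝟙_ C ⟶ cokernel z) :=
        { toFun := fun f => f ≫ p
          map_add' := fun f g => Preadditive.add_comp _ _ _ _ _ _
          map_smul' := fun c f => Linear.smul_comp _ _ _ _ _ _ }
      have hker : LinearMap.ker φ ≤ Submodule.span ℚ {z} := by
        intro f hf
        have h1 : f ≫ p = 0 := hf
        obtain ⟨l, hl⟩ := exists_lift_unit z f h1
        obtain ⟨q, hq⟩ := hU.ex l
        rw [Submodule.mem_span_singleton]
        refine ⟨q, ?_⟩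
        rw [← hl, hq]
        simp
      have hfk : Module.Finite ℚ (LinearMap.ker φ) := by
        have : Module.Finite ℚ (Submodule.span ℚ {z}) := inferInstance
        exact Submodule.finiteDimensional_of_le hker
      have hk1 : Module.finrank ℚ (LinearMap.ker φ) ≤ 1 :=
        (Submodule.finrank_mono hker).trans ((finrank_span_le_card {z}).trans (by simp))
      have hq : Module.Finite ℚ ((𝟙_ C ⟶ M) ⧸ LinearMap.ker φ) :=
        Module.Finite.equiv φ.quotKerEquivRange.symm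
      have hfin : Module.Finite ℚ (𝟙_ C ⟶ M) := Module.Finite.of_submodule_quotient
        (LinearMap.ker φ)
      refine ⟨hfin, ?_⟩
      have h1 := LinearMap.finrank_range_add_finrank_ker φ
      have h2 := Submodule.finrank_le (LinearMap.range φ)
      omega

end

end Pool.Agent.X279.AB
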