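import Pool.Agent.X279.AB.Sub

/-!
# Self-duality and numerical equivalence
-/

set_option autoImplicit false
set_option linter.unusedSectionVars false
set_option linter.unusedSimpArgs false

open CategoryTheory Limits MonoidalCategory
open Pool.Agent.Y112.SR Pool.Agent.Y112.KD Pool.Agent.X264.KF
open Pool.Agent.Y116.MT (tr)
open Pool.Agent.TH829.Kim (InRad Killed isNilpotent_of_inRad)

namespace Pool.Agent.X279.AB

universe v u w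

section

variable {C : Type u} [Category.{v} C] [Preadditive C] [Linear ℚ C] [MonoidalCategory C]
  [MonoidalPreadditive C] [MonoidalLinear ℚ C] [SymmetricCategory C] [RightRigidCategory C]

/-- The composition `E → E ⊗ E ⊗ E → E` given by a copairing and a pairing. -/
def zig {E : C} (φ : E ⊗ E ⟶ 𝟙_ C) (ψ : 𝟙_ C ⟶ E ⊗ E) : End E :=
  (ρ_ E).inv ≫ E ◁ ψ ≫ (α_ E E E).inv ≫ φ ▷ E ≫ (λ_ E).hom

/-- Modulo numerical equivalence `E` carries a perfect symmetric pairing: there are a pairing `φ`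
and a copairing `ψ` such that the image of `φ` modulo numerical equivalence is symmetric and the
image of the composition `E → E ⊗ E ⊗ E → E` given by `φ` and `ψ` is the identity. -/
def NumSymSelfDual (hU : UnitQ C) (E : C) : Prop :=
  ∃ (φ : E ⊗ E ⟶ 𝟙_ C) (ψ : 𝟙_ C ⟶ E ⊗ E),
    (∀ c : 𝟙_ C ⟶ E ⊗ E, c ≫ (β_ E E).hom ≫ φ = c ≫ φ) ∧
    ∀ γ : End E, trq hU E ((zig φ ψ - 1) * γ) = 0

lemma zig_comp {E : C} (φ : E ⊗ E ⟶ 𝟙_ C) (ψ : 𝟙_ C ⟶ E ⊗ E) (γ : E ⟶ E) :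
    (zig φ ψ : E ⟶ E) ≫ γ = (zig φ (ψ ≫ E ◁ γ) : E ⟶ E) := by
  change ((ρ_ E).inv ≫ E ◁ ψ ≫ (α_ E E E).inv ≫ φ ▷ E ≫ (λ_ E).hom) ≫ γ =
    (ρ_ E).inv ≫ E ◁ (ψ ≫ E ◁ γ) ≫ (α_ E E E).inv ≫ φ ▷ E ≫ (λ_ E).hom
  simp only [Category.assoc, MonoidalCategory.whiskerLeft_comp]
  have h1 : E ◁ (E ◁ γ) ≫ (α_ E E E).inv = (α_ E E E).inv ≫ (E ⊗ E) ◁ γ := by simp
  rw [reassoc_of% h1, ← leftUnitor_naturality, whisker_exchange_assoc]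

variable {K : Type w} [Field K] (R : SuperRealisation C K)

include R in
lemma trq_zig_zero (hU : UnitQ C) {E : C} (δ : E ⊗ E ⟶ 𝟙_ C)
    (hδ : ∀ c : 𝟙_ C ⟶ E ⊗ E, c ≫ δ = 0) (ψ : 𝟙_ C ⟶ E ⊗ E) : trq hU E (zig δ ψ) = 0 := by
  let a : E ⟶ (E ⊗ E) ⊗ E := (ρ_ E).inv ≫ E ◁ ψ ≫ (α_ E E E).inv
  let b : (E ⊗ E) ⊗ E ⟶ E := δ ▷ E ≫ (λ_ E).hom
  have h1 : (zig δ ψ : E ⟶ E) = a ≫ b := by
    change (ρ_ E).inv ≫ E ◁ ψ ≫ (α_ E E E).inv ≫ δ ▷ E ≫ (λ_ E).hom = a ≫ b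
    simp only [a, b, Category.assoc]
  have h2 := trq_comm' R hU a b
  have h3 := trq_ptr R hU (b ≫ a)
  have h4 : ∃ c : 𝟙_ C ⟶ E ⊗ E, ptr (b ≫ a) = δ ≫ c := by
    refine ⟨(ρ_ _).inv ≫ (𝟙_ C) ◁ η_ E Eᘁ ≫ (α_ _ _ _).inv ≫ ((λ_ E).hom ≫ a) ▷ Eᘁ ≫
      (α_ (E ⊗ E) E Eᘁ).hom ≫ (E ⊗ E) ◁ ((β_ E Eᘁ).hom ≫ ε_ E Eᘁ) ≫ (ρ_ (E ⊗ E)).hom, ?_⟩
    rw [ptr]
    have h5 : b ≫ a = δ ▷ E ≫ ((λ_ E).hom ≫ a) := by
      simp only [b, Category.assoc]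
    rw [h5, comp_whiskerRight]
    have h6 : (α_ (E ⊗ E) E Eᘁ).inv ≫ (δ ▷ E) ▷ Eᘁ = δ ▷ (E ⊗ Eᘁ) ≫ (α_ (𝟙_ C) E Eᘁ).inv := by
      simp
    have h7 : (E ⊗ E) ◁ η_ E Eᘁ ≫ δ ▷ (E ⊗ Eᘁ) = δ ▷ (𝟙_ C) ≫ (𝟙_ C) ◁ η_ E Eᘁ := by
      rw [whisker_exchange]
    have h8 : (ρ_ (E ⊗ E)).inv ≫ δ ▷ (𝟙_ C) = δ ≫ (ρ_ (𝟙_ C)).inv := by
      rw [rightUnitor_inv_naturality]
    simp only [Category.assoc]
    rw [reassoc_of% h6, reassoc_of% h7, reassoc_of% h8]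
  obtain ⟨c, hc⟩ := h4
  have h5 := trq_comm' R hU δ c
  rw [hδ c, map_zero] at h5
  rw [hc] at h3
  have h6 : trq hU E (zig δ ψ) = trq hU E (a ≫ b : E ⟶ E) := by
    rw [← h1]
  rw [h6, h2, ← h3]
  exact h5

lemma zig_add {E : C} (φ φ' : E ⊗ E ⟶ 𝟙_ C) (ψ : 𝟙_ C ⟶ E ⊗ E) :
    zig (φ + φ') ψ = zig φ ψ + zig φ' ψ := by
  have h : ((ρ_ E).inv ≫ E ◁ ψ ≫ (α_ E E E).inv ≫ (φ + φ') ▷ E ≫ (λ_ E).hom : E ⟶ E) =
      ((ρ_ E).inv ≫ E ◁ ψ ≫ (α_ E E E).inv ≫ φ ▷ E ≫ (λ_ E).hom) +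
      ((ρ_ E).inv ≫ E ◁ ψ ≫ (α_ E E E).inv ≫ φ' ▷ E ≫ (λ_ E).hom) := by
    rw [MonoidalPreadditive.add_whiskerRight]
    simp only [Preadditive.comp_add, Preadditive.add_comp]
  exact h

include R in
/-- The pairing may be taken to be symmetric. -/
lemma exists_symm (hU : UnitQ C) {E : C} (h : NumSymSelfDual hU E) :
    ∃ (φ : E ⊗ E ⟶ 𝟙_ C) (ψ : 𝟙_ C ⟶ E ⊗ E), (β_ E E).hom ≫ φ = φ ∧
      ∀ γ : End E, trq hU E ((zig φ ψ - 1) * γ) = 0 := by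
  obtain ⟨φ, ψ, h1, h2⟩ := h
  refine ⟨(2⁻¹ : ℚ) • (φ + (β_ E E).hom ≫ φ), ψ, ?_, fun γ => ?_⟩
  · rw [Linear.comp_smul, Preadditive.comp_add, ← Category.assoc (β_ E E).hom,
      SymmetricCategory.symmetry, Category.id_comp, add_comm]
  · let δ : E ⊗ E ⟶ 𝟙_ C := (2⁻¹ : ℚ) • ((β_ E E).hom ≫ φ - φ)
    have h3 : (2⁻¹ : ℚ) • (φ + (β_ E E).hom ≫ φ) = φ + δ := by
      simp only [δ]
      module
    have h4 : ∀ c : 𝟙_ C ⟶ E ⊗ E, c ≫ δ = 0 := by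
      intro c
      simp only [δ]
      rw [Linear.comp_smul, Preadditive.comp_sub, h1, sub_self, smul_zero]
    rw [h3, zig_add, add_sub_right_comm, add_mul, map_add, h2, zero_add]
    have h5 : trq hU E (zig δ ψ * γ) = trq hU E (γ * zig δ ψ) := trq_comm' R hU γ (zig δ ψ)
    rw [h5, End.mul_def, zig_comp]
    exact trq_zig_zero R hU δ h4 _

include R in
/-- An endomorphism of a Kimura-finite object in the radical of the trace form is nilpotent. -/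
lemma nil_of_inRad (hU : UnitQ C) {M : C} (hM : IsKimuraFinite M) (x : End M)
    (hx : ∀ γ : End M, trq hU M (x * γ) = 0) : IsNilpotent x := by
  obtain ⟨A, B, i, r, j, s, h1, h2, h3, ⟨n, h4⟩, ⟨m, h5⟩⟩ := hM
  have e1 : ((-1 : ℚ) * (-1)) = 1 := by norm_num
  have e2 : ((1 : ℚ) * 1) = 1 := by norm_num
  have h6 := asym_succ_zero e1 ((kills_iff e1 A n).mp h4)
  have h7 := asym_succ_zero e2 ((kills_iff e2 B m).mp h5)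
  let e : End M := (r ≫ i : M ⟶ M)
  have he : e * e = e := by
    rw [End.mul_def]
    change (r ≫ i) ≫ (r ≫ i) = r ≫ i
    rw [Category.assoc, reassoc_of% h1]
  have he' : (1 - e : End M) = (show End M from s ≫ j) := by
    change 𝟙 M - r ≫ i = s ≫ j
    rw [← h3, add_sub_cancel_left]
  have hE : Killed (trq hU M) (-1) e n := killed hU e1 i r n h6 e rfl
  have hO : Killed (trq hU M) 1 (1 - e) m := killed hU e2 j s m h7 (1 - e) he'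
  exact isNilpotent_of_inRad (R := End M) (tr := trq hU M) (fun a b => trq_comm' R hU b a)
    (f := e) he hE hO hx

end

end Pool.Agent.X279.AB
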