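import Pool.Agent.X279.AB.Main

/-!
# The dimension bound with an operator which fixes all morphisms from the unit
-/

set_option autoImplicit false
set_option linter.unusedSectionVars false
set_option linter.unusedSimpArgs false

open CategoryTheory Limits MonoidalCategory
open Pool.Agent.Y112.SR Pool.Agent.Y112.KD Pool.Agent.X264.KF
open Pool.Agent.Y116.MT (tr)
open Pool.Agent.TH829.Kim (K_eq_poly Killed)
open scoped Polynomial

namespace Pool.Agent.X279.AB

universe v u w

section

/-- The projector to the generalised eigenspace for the eigenvalue one. -/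
lemma exists_fitting {A : Type*} [Ring A] [Algebra ℚ A] (x : A) (P : ℚ[X]) (hP : P ≠ 0)
    (hx : Polynomial.aeval x P = 0) : ∃ (k : ℕ) (v : ℚ[X]),
      Polynomial.aeval x v * Polynomial.aeval x v = Polynomial.aeval x v ∧
      (x - 1) ^ k * Polynomial.aeval x v = 0 ∧ v.eval 1 = 1 := by
  have hQ : (Polynomial.X - Polynomial.C 1) * P ≠ 0 :=
    mul_ne_zero (Polynomial.X_sub_C_ne_zero 1) hP
  obtain ⟨ψ, hψ, hψ'⟩ := Polynomial.exists_eq_pow_rootMultiplicity_mul_and_not_dvd
    ((Polynomial.X - Polynomial.C 1) * P) hQ 1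
  set k := ((Polynomial.X - Polynomial.C 1) * P).rootMultiplicity (1 : ℚ) with hk
  have hk1 : k ≠ 0 := by
    intro hk0
    rw [hk0, pow_zero, one_mul] at hψ
    exact hψ' (hψ ▸ dvd_mul_right _ _)
  have hcop : IsCoprime ((Polynomial.X - Polynomial.C (1 : ℚ)) ^ k) ψ :=
    IsCoprime.pow_left (((Polynomial.irreducible_X_sub_C (1 : ℚ)).coprime_iff_not_dvd).2 hψ')
  obtain ⟨u, w, huw⟩ := hcop
  have hprod : Polynomial.aeval x ((Polynomial.X - Polynomial.C (1 : ℚ)) ^ k * ψ) = 0 := by
    rw [← hψ, map_mul, hx, mul_zero]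
  refine ⟨k, w * ψ, ?_, ?_, ?_⟩
  · have e1 : (w * ψ) * (w * ψ) = w * ψ - (w * u) *
        ((Polynomial.X - Polynomial.C (1 : ℚ)) ^ k * ψ) := by
      have : w * ψ = 1 - u * (Polynomial.X - Polynomial.C (1 : ℚ)) ^ k := by rw [← huw]; ring
      calc (w * ψ) * (w * ψ) = (w * ψ) * (1 - u * (Polynomial.X - Polynomial.C (1 : ℚ)) ^ k) := by
            rw [← this]
        _ = _ := by ring
    rw [← map_mul, e1, map_sub, map_mul (Polynomial.aeval x) (w * u), hprod, mul_zero, sub_zero]
  · have e1 : (Polynomial.X - Polynomial.C (1 : ℚ)) ^ k * (w * ψ) =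
        w * ((Polynomial.X - Polynomial.C (1 : ℚ)) ^ k * ψ) := by ring
    have e2 : (x - 1) ^ k = Polynomial.aeval x ((Polynomial.X - Polynomial.C (1 : ℚ)) ^ k) := by
      simp
    rw [e2, ← map_mul, e1, map_mul (Polynomial.aeval x) w, hprod, mul_zero]
  · have := congrArg (Polynomial.eval 1) huw
    simp only [Polynomial.eval_add, Polynomial.eval_mul, Polynomial.eval_pow, Polynomial.eval_sub,
      Polynomial.eval_X, Polynomial.eval_C, sub_self, Polynomial.eval_one, zero_pow hk1, mul_zero,
      zero_add] at this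
    rw [Polynomial.eval_mul, this]

end

section

variable {C : Type u} [Category.{v} C] [Preadditive C] [Linear ℚ C] [MonoidalCategory C]
  [MonoidalPreadditive C] [MonoidalLinear ℚ C] [SymmetricCategory C] [RightRigidCategory C]

/-- The theorem of Cayley and Hamilton. -/
lemma exists_annihilator (hU : UnitQ C) {A : C} {n : ℕ} (h : asym (-1) A (n + 1) = 0)
    (x : End A) : ∃ P : ℚ[X], P ≠ 0 ∧ Polynomial.aeval x P = 0 := by
  have hE := killed hU (by norm_num) (𝟙 A) (𝟙 A) n h (1 : End A)
    (by rw [Category.comp_id]; rfl)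
  obtain ⟨q, hq, hq'⟩ := K_eq_poly (trq hU A) (-1) x n (fun _ => 1) (fun _ => le_rfl)
  simp only [pow_one, Finset.sum_const, Finset.card_univ, Fintype.card_fin, smul_eq_mul,
    mul_one] at hq hq'
  rw [hE.K_eq _ (fun _ => one_mul _)] at hq'
  set c0 : ℚ := (-1) ^ n * n.factorial with hc0
  have hc0' : c0 ≠ 0 := by
    rw [hc0]
    positivity
  refine ⟨Polynomial.C c0 * Polynomial.X ^ (n + 1) + q, ?_, ?_⟩
  · intro h0
    have h1 : (Polynomial.C c0 * Polynomial.X ^ (n + 1) + q).coeff (n + 1) = c0 := by
      simp only [Polynomial.coeff_add, Polynomial.coeff_C_mul, Polynomial.coeff_X_pow,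
        if_true, mul_one]
      rw [Polynomial.coeff_eq_zero_of_degree_lt hq, add_zero]
    rw [h0, Polynomial.coeff_zero] at h1
    exact hc0' h1.symm
  · simp only [map_add, map_mul, map_pow, Polynomial.aeval_X, Polynomial.aeval_C]
    rw [← Algebra.smul_def, ← hq']

/-- A morphism from the unit fixed by `x` is multiplied by `v(1)` by `v(x)`. -/
lemma comp_aeval {A : C} (z : 𝟙_ C ⟶ A) (x : End A) (hz : z ≫ (x : A ⟶ A) = z) (p : ℚ[X]) :
    z ≫ (Polynomial.aeval x p : End A) = p.eval 1 • z := by
  have h1 : ∀ k : ℕ, z ≫ ((x ^ k : End A) : A ⟶ A) = z := by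
    intro k
    induction k with
    | zero =>
      rw [pow_zero]
      exact Category.comp_id z
    | succ k ih =>
      rw [pow_succ', End.mul_def, ← Category.assoc, ih, hz]
  induction p using Polynomial.induction_on' with
  | add p q hp hq =>
    rw [map_add, Polynomial.eval_add, add_smul, ← hp, ← hq]
    exact Preadditive.comp_add _ _ _ _ _ _
  | monomial k c =>
    rw [Polynomial.aeval_monomial, Polynomial.eval_monomial, one_pow, mul_one,
      ← Algebra.smul_def]
    have h2 : z ≫ ((c • x ^ k : End A) : A ⟶ A) = c • (z ≫ ((x ^ k : End A) : A ⟶ A)) :=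
      Linear.comp_smul _ _ _ _ _ _
    rw [h2, h1]

end

section

variable {C : Type u} [Category.{v} C] [Abelian C] [Linear ℚ C] [MonoidalCategory C]
  [MonoidalPreadditive C] [MonoidalLinear ℚ C] [SymmetricCategory C] [RightRigidCategory C]
  {K : Type w} [Field K] (R : SuperRealisation C K)

/-- the generalised eigenspace for the eigenvalue `1` of (the realisation of) `φ` on the even part
of the realisation of `M` -/
noncomputable def evenEigen {M : C} (φ : M ⟶ M) : Submodule K (R.H.obj M) :=
  LinearMap.ker ((R.par M).hom - LinearMap.id) ⊓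
    Module.End.maxGenEigenspace (R.H.map φ).hom 1

/-- its dimension: the multiplicity of the eigenvalue `1` of `φ` on the even part -/
noncomputable def evenMult {M : C} (φ : M ⟶ M) : ℕ := Module.finrank K (evenEigen R φ)

theorem bound_frob (hU : UnitQ C) {M : C} (hM : IsKimuraFinite M) (φ : M ⟶ M)
    (hφ : ∀ z : 𝟙_ C ⟶ M, z ≫ φ = z) :
    Module.Finite ℚ (𝟙_ C ⟶ M) ∧ Module.finrank ℚ (𝟙_ C ⟶ M) ≤ evenMult R φ ∧
    (Module.finrank ℚ (𝟙_ C ⟶ M) = evenMult R φ ↔
      ∃ (z : Fin (evenMult R φ) → (𝟙_ C ⟶ M)) (w : Fin (evenMult R φ) → (M ⟶ 𝟙_ C)),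
        ∀ i j, z i ≫ w j = if i = j then 𝟙 _ else 0) := by
  obtain ⟨A, B, i, r, j, s, h1, h2, h3, ⟨n, h4⟩, ⟨m, h5⟩⟩ := hM
  have h6 := asym_succ_zero (by norm_num) ((kills_iff (by norm_num) A n).mp h4)
  have h7 := (kills_iff (by norm_num) B m).mp h5
  have hK := R_charZero R
  have hparA := par_of_asym R (by norm_num) h6
  have hparB := par_of_asym R (by norm_num) h7
  have hjr : ∀ f : A ⟶ B, R.H.map f = 0 := by
    intro f
    have h8 := R.par_natural f
    rw [hparA, hparB] at h8
    simp only [Linear.comp_smul, Linear.smul_comp, Category.comp_id, Category.id_comp] at h8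
    push_cast at h8
    rw [neg_neg, one_smul, neg_smul, one_smul, neg_eq_iff_add_eq_zero, ← two_smul K] at h8
    exact (smul_eq_zero.mp h8).resolve_left two_ne_zero
  -- the operator on `A`
  let x : End A := i ≫ φ ≫ r
  have hx : ∀ z : 𝟙_ C ⟶ A, z ≫ (x : A ⟶ A) = z := by
    intro z
    change z ≫ i ≫ φ ≫ r = z
    rw [← Category.assoc, ← Category.assoc, hφ (z ≫ i), Category.assoc, h1, Category.comp_id]
  obtain ⟨P, hP, hPx⟩ := exists_annihilator hU h6 x
  obtain ⟨k, v, hv1, hv2, hv3⟩ := exists_fitting x P hP hPx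
  have hze : ∀ z : 𝟙_ C ⟶ A, z ≫ (Polynomial.aeval x v : End A) = z := by
    intro z
    rw [comp_aeval z x (hx z), hv3, one_smul]
  obtain ⟨A1, i1, r1, hir1, hri1⟩ := IsIdempotentComplete.idempotents_split A
    ((Polynomial.aeval x v : End A) : A ⟶ A) hv1
  have h8 : asym (-1) A1 (n + 1) = 0 := by
    have h9 := kills_retract i1 r1 hir1 h6
    exact h9
  have h9 := exists_min_kill R hU h8
  obtain ⟨hf, hb⟩ := bound_aux hU _ A1 h9
  -- the morphisms to `M` are those to `A1`
  let e : (𝟙_ C ⟶ M) ≃ₗ[ℚ] (𝟙_ C ⟶ A1) :=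
    { toFun := fun f => f ≫ r ≫ r1
      map_add' := fun f g => Preadditive.add_comp _ _ _ _ _ _
      map_smul' := fun c f => Linear.smul_comp _ _ _ _ _ _
      invFun := fun g => g ≫ i1 ≫ i
      left_inv := fun f => by
        have h12 : f ≫ s = 0 := eq_zero_of_odd hU h7 _
        change (f ≫ r ≫ r1) ≫ i1 ≫ i = f
        have h13 : (f ≫ r ≫ r1) ≫ i1 ≫ i = ((f ≫ r) ≫ (r1 ≫ i1)) ≫ i := by
          simp only [Category.assoc]
        rw [h13, hri1, hze]
        conv_rhs => rw [← Category.comp_id f, ← h3, Preadditive.comp_add, ← Category.assoc f s,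
          h12, zero_comp, add_zero]
        rw [Category.assoc]
      right_inv := fun g => by
        change (g ≫ i1 ≫ i) ≫ r ≫ r1 = g
        simp only [Category.assoc]
        rw [reassoc_of% h1, hir1, Category.comp_id] }
  have hfM : Module.Finite ℚ (𝟙_ C ⟶ M) := Module.Finite.equiv e.symm
  have hrM : Module.finrank ℚ (𝟙_ C ⟶ M) = Module.finrank ℚ (𝟙_ C ⟶ A1) := e.finrank_eq
  -- the realisation of `A1` in the eigenspace
  have hA1 : Module.finrank K (R.H.obj A1) ≤ evenMult R φ := by
    have hfin := R.finite M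
    have hiφ : R.H.map i ≫ R.H.map φ = R.H.map (x : A ⟶ A) ≫ R.H.map i := by
      rw [← Functor.map_comp, ← Functor.map_comp]
      have h10 : i ≫ φ = (x : A ⟶ A) ≫ i + (i ≫ φ ≫ s) ≫ j := by
        change _ = (i ≫ φ ≫ r) ≫ i + _
        rw [← Category.comp_id (i ≫ φ), ← h3, Preadditive.comp_add]
        simp only [Category.assoc]
      rw [h10, Functor.map_add, Functor.map_comp _ (i ≫ φ ≫ s), hjr, zero_comp, add_zero]
    have h10 : ∀ y : R.H.obj A1, (R.H.map (i1 ≫ i)).hom y ∈ evenEigen R φ := by
      intro y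
      refine ⟨?_, ?_⟩
      · have h11 := R.par_natural (i1 ≫ i)
        have hpar1 := par_of_asym R (by norm_num) h8
        rw [hpar1] at h11
        have h12 := LinearMap.congr_fun (congrArg ModuleCat.Hom.hom h11) y
        change _ ∈ LinearMap.ker ((R.par M).hom - LinearMap.id)
        rw [LinearMap.mem_ker, LinearMap.sub_apply, LinearMap.id_apply, sub_eq_zero]
        have h13 : (R.par M).hom ((R.H.map (i1 ≫ i)).hom y) = (R.H.map (i1 ≫ i)).hom
            (((( - (-1) : ℚ)) : K) • y) := h12
        rw [h13]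
        push_cast
        rw [neg_neg, one_smul]
      · rw [SetLike.mem_coe, Module.End.mem_maxGenEigenspace]
        refine ⟨k, ?_⟩
        have h11 : ∀ (l : ℕ) (t : R.H.obj A), (((R.H.map φ).hom - (1 : K) • 1) ^ l)
            ((R.H.map i).hom t) = (R.H.map i).hom ((R.H.map (((x - 1) ^ l : End A) : A ⟶ A)).hom
              t) := by
          intro l
          induction l with
          | zero =>
            intro t
            rw [pow_zero, pow_zero]
            change (R.H.map i).hom t = (R.H.map i).hom ((R.H.map (𝟙 A)).hom t)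
            rw [CategoryTheory.Functor.map_id]
            rfl
          | succ l ih =>
            intro t
            rw [pow_succ, Module.End.mul_apply]
            have h12 : ((R.H.map φ).hom - (1 : K) • 1) ((R.H.map i).hom t) =
                (R.H.map i).hom ((R.H.map ((x - 1 : End A) : A ⟶ A)).hom t) := by
              have h13 := LinearMap.congr_fun (congrArg ModuleCat.Hom.hom hiφ) t
              have h14 : (R.H.map φ).hom ((R.H.map i).hom t) = (R.H.map i).hom
                ((R.H.map (x : A ⟶ A)).hom t) := h13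
              have h15 : R.H.map ((x - 1 : End A) : A ⟶ A) = R.H.map (x : A ⟶ A) - 𝟙 _ := by
                let x' : A ⟶ A := x
                change R.H.map (x' - 𝟙 A) = R.H.map x' - 𝟙 _
                rw [Functor.map_sub, CategoryTheory.Functor.map_id]
              rw [h15]
              simp only [LinearMap.sub_apply, LinearMap.smul_apply, Module.End.one_apply,
                one_smul, ModuleCat.hom_sub, ModuleCat.hom_id, LinearMap.id_apply, map_sub, h14]
            rw [h12, ih, pow_succ, End.mul_def, Functor.map_comp]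
            rfl
        rw [Functor.map_comp]
        change (((R.H.map φ).hom - (1 : K) • 1) ^ k) ((R.H.map i).hom ((R.H.map i1).hom y)) = 0
        rw [h11]
        have h12 : (R.H.map (((x - 1) ^ k : End A) : A ⟶ A)).hom ((R.H.map i1).hom y) = 0 := by
          have h13 : i1 ≫ (((x - 1) ^ k : End A) : A ⟶ A) = 0 := by
            have h14 : i1 = i1 ≫ ((Polynomial.aeval x v : End A) : A ⟶ A) := by
              rw [← hri1, ← Category.assoc, hir1, Category.id_comp]
            rw [h14, Category.assoc]
            have h15 : ((Polynomial.aeval x v : End A) : A ⟶ A) ≫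
                (((x - 1) ^ k : End A) : A ⟶ A) = 0 := hv2
            rw [h15, comp_zero]
          have h14 : R.H.map i1 ≫ R.H.map (((x - 1) ^ k : End A) : A ⟶ A) = 0 := by
            rw [← Functor.map_comp, h13, Functor.map_zero]
          exact LinearMap.congr_fun (congrArg ModuleCat.Hom.hom h14) y
        rw [h12, map_zero]
    have h11 : Function.Injective (LinearMap.codRestrict _ (R.H.map (i1 ≫ i)).hom h10) := by
      intro y y' hyy
      have h12 : (R.H.map (i1 ≫ i)).hom y = (R.H.map (i1 ≫ i)).hom y' := congrArg Subtype.val hyy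
      have h13 : R.H.map (i1 ≫ i) ≫ R.H.map (r ≫ r1) = 𝟙 _ := by
        rw [← Functor.map_comp]
        simp only [Category.assoc]
        rw [reassoc_of% h1, hir1, CategoryTheory.Functor.map_id]
      have h14 : ∀ y, (R.H.map (r ≫ r1)).hom ((R.H.map (i1 ≫ i)).hom y) = y := fun y =>
        LinearMap.congr_fun (congrArg ModuleCat.Hom.hom h13) y
      rw [← h14 y, ← h14 y', h12]
    exact LinearMap.finrank_le_finrank_of_injective h11
  refine ⟨hfM, by omega, ⟨fun heq => ?_, fun h => ?_⟩⟩
  · have h12 : Module.finrank K (R.H.obj A1) = evenMult R φ := by omega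
    have h13 : Module.finrank ℚ (𝟙_ C ⟶ A1) = evenMult R φ := by omega
    rw [h12] at h9
    obtain ⟨z, w, hzw, -⟩ := triv_aux hU _ A1 h9 h13
    refine ⟨fun l => z l ≫ i1 ≫ i, fun l => r ≫ r1 ≫ w l, fun a b => ?_⟩
    simp only [Category.assoc]
    rw [reassoc_of% h1, reassoc_of% hir1, hzw]
  · obtain ⟨z, w, hzw⟩ := h
    have hli : LinearIndependent ℚ z := by
      rw [Fintype.linearIndependent_iff]
      intro g hg l
      have h10 : (∑ a, g a • z a) ≫ w l = 0 := by rw [hg, zero_comp]
      rw [Preadditive.sum_comp] at h10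
      have h11 : ∀ a, (g a • z a) ≫ w l = if a = l then g a • 𝟙 (𝟙_ C) else 0 := by
        intro a
        rw [Linear.smul_comp, hzw]
        split_ifs
        · rfl
        · rw [smul_zero]
      simp only [h11, Finset.sum_ite_eq', Finset.mem_univ, if_true] at h10
      have h12 : g l • 𝟙 (𝟙_ C) = (0 : ℚ) • 𝟙 (𝟙_ C) := by rw [h10, zero_smul]
      exact hU.inj h12
    have h10 := hli.fintype_card_le_finrank
    rw [Fintype.card_fin] at h10
    omega

end

end Pool.Agent.X279.AB
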