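import Pool.Agent.X279.AB.Dual
import Pool.Agent.X279.AB.Frob

/-!
# Self-duality and numerical equivalence: the main argument
-/

set_option autoImplicit false
set_option linter.unusedSectionVars false
set_option linter.unusedSimpArgs false

open CategoryTheory Limits MonoidalCategory
open Pool.Agent.Y112.SR Pool.Agent.Y112.KD Pool.Agent.X264.KF
open Pool.Agent.Y116.MT (tr)
open Pool.Agent.TH829.Kim (InRad Killed isNilpotent_of_inRad)

namespace Pool.Agent.X279.AB

universe v u w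

section

variable {C : Type u} [Category.{v} C] [Abelian C] [Linear ℚ C] [MonoidalCategory C]
  [MonoidalPreadditive C] [MonoidalLinear ℚ C] [SymmetricCategory C] [RightRigidCategory C]

lemma scale (hU : UnitQ C) {X : C} (f : 𝟙_ C ⟶ X) (g : X ⟶ 𝟙_ C) (h : f ≫ g ≠ 0) :
    ∃ c : ℚ, (c • f) ≫ g = 𝟙 _ := by
  obtain ⟨q, hq⟩ := hU.ex (f ≫ g)
  have hq0 : q ≠ 0 := by
    rintro rfl
    rw [zero_smul] at hq
    exact h hq
  exact ⟨q⁻¹, by rw [Linear.smul_comp, hq, smul_smul, inv_mul_cancel₀ hq0, one_smul]⟩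

/-- The core of the argument: a nonzero nonsplit morphism `g : E → 𝟙` such that the morphisms to
the unit from smaller objects split, and a symmetric pairing on `E` which represents `g`. -/
lemma core (hU : UnitQ C) {E : C} {m : ℕ} (hE : asym (-1) E (m + 1) = 0) (g : E ⟶ 𝟙_ C)
    (hg : g ≠ 0) (hns : ∀ t : 𝟙_ C ⟶ E, t ≫ g ≠ 𝟙 _)
    (hmin : ∀ (S : C) (g' : S ⟶ 𝟙_ C), g' ≠ 0 → asym (-1) S m = 0 → ∃ t, t ≫ g' = 𝟙 _)
    (φ : E ⊗ E ⟶ 𝟙_ C) (hφ : (β_ E E).hom ≫ φ = φ) (u : 𝟙_ C ⟶ E)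
    (hu : E ◁ u ≫ φ = (ρ_ E).hom ≫ g) : False := by
  have hu0 : u ≠ 0 := by
    rintro rfl
    rw [MonoidalPreadditive.whiskerLeft_zero, zero_comp] at hu
    apply hg
    rw [← cancel_epi (ρ_ E).hom, ← hu, comp_zero]
  have hug : u ≫ g = 0 := by
    by_contra h
    obtain ⟨c, hc⟩ := scale hU u g h
    exact hns _ hc
  have hgE := epi_of_ne_zero hU g hg
  have hmu := mono_of_ne_zero hU u hu0
  let p := cokernel.π u
  have hup : u ≫ p = 0 := cokernel.condition u
  let g' : cokernel u ⟶ 𝟙_ C := cokernel.desc u g hug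
  have hpg : p ≫ g' = g := cokernel.π_desc u g hug
  have hg' : g' ≠ 0 := by
    intro h
    apply hg
    rw [← hpg, h, comp_zero]
  have hQ : asym (-1) (cokernel u) m = 0 := kill_quotG hU (unit_not_isZero hU) u p hup hE
  obtain ⟨s, hs⟩ := hmin _ g' hg' hQ
  have hsm : Mono s := mono_of_mono_fac hs
  -- the pullback
  have hfst : Epi (pullback.fst p s) := by
    by_contra hne
    have h1 := kill_sub hU (pullback.fst p s) hne hE
    have h2 : pullback.fst p s ≫ g = pullback.snd p s := by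
      rw [← hpg, ← Category.assoc, pullback.condition, Category.assoc, hs, Category.comp_id]
    have h3 : pullback.snd p s ≠ 0 := by
      intro h0
      apply hU.ne
      rw [← cancel_epi (pullback.snd p s), h0, zero_comp, zero_comp]
    obtain ⟨t, ht⟩ := hmin _ (pullback.snd p s) h3 h1
    apply hns (t ≫ pullback.fst p s)
    rw [Category.assoc, h2, ht]
  have hfi : IsIso (pullback.fst p s) := isIso_of_mono_of_epi _
  have hgs : g' ≫ s = 𝟙 _ := by
    have h1 : p = inv (pullback.fst p s) ≫ pullback.snd p s ≫ s := by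
      rw [← pullback.condition, IsIso.inv_hom_id_assoc]
    rw [← cancel_epi p, Category.comp_id]
    conv_lhs => rw [h1]
    simp only [Category.assoc]
    rw [reassoc_of% hs]
    exact h1.symm
  have hgp : g ≫ s = p := by rw [← hpg, Category.assoc, hgs, Category.comp_id]
  -- the alternating pairing
  let a : E ⊗ E ⟶ E := g ▷ E ≫ (λ_ E).hom - E ◁ g ≫ (ρ_ E).hom
  have ha : a ≫ g = 0 := by
    simp only [a]
    rw [Preadditive.sub_comp, Category.assoc, Category.assoc, ← leftUnitor_naturality,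
      ← rightUnitor_naturality, whisker_exchange_assoc, unitors_equal, sub_self]
  have hap : a ≫ cokernel.π u = 0 := by
    change a ≫ p = 0
    rw [← hgp, ← Category.assoc, ha, zero_comp]
  obtain ⟨ψ, hψ⟩ := exists_lift_unit u a hap
  have key : E ◁ u ≫ g ▷ E = g ▷ (𝟙_ C) ≫ (𝟙_ C) ◁ u := by rw [whisker_exchange]
  have key' : u ▷ E ≫ E ◁ g = (𝟙_ C) ◁ g ≫ u ▷ (𝟙_ C) := by rw [whisker_exchange]
  have h1 : E ◁ u ≫ ψ = (ρ_ E).hom ≫ g := by
    rw [← cancel_mono u, Category.assoc, hψ]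
    simp only [a]
    rw [Preadditive.comp_sub, reassoc_of% key]
    have h2 : E ◁ u ≫ E ◁ g = 0 := by
      rw [← MonoidalCategory.whiskerLeft_comp, hug, MonoidalPreadditive.whiskerLeft_zero]
    rw [reassoc_of% h2, zero_comp, sub_zero, leftUnitor_naturality, unitors_equal,
      rightUnitor_naturality_assoc, Category.assoc]
  have h2 : u ▷ E ≫ ψ = -((λ_ E).hom ≫ g) := by
    rw [← cancel_mono u, Category.assoc, hψ]
    simp only [a]
    rw [Preadditive.comp_sub, reassoc_of% key']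
    have h2 : u ▷ E ≫ g ▷ E = 0 := by
      rw [← comp_whiskerRight, hug, MonoidalPreadditive.zero_whiskerRight]
    rw [reassoc_of% h2, zero_comp, zero_sub, rightUnitor_naturality, ← unitors_equal,
      leftUnitor_naturality_assoc, Preadditive.neg_comp, Category.assoc]
  have h3 : u ▷ E ≫ φ = (λ_ E).hom ≫ g := by
    rw [← hφ, ← Category.assoc, BraidedCategory.braiding_naturality_left, Category.assoc, hu]
    simp
  have h4 : u ▷ E ≫ (φ + ψ) = 0 := by
    rw [Preadditive.comp_add, h2, h3, add_neg_cancel]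
  -- the sum factors
  have hcol : ∃ l : cokernel u ⊗ E ⟶ 𝟙_ C, p ▷ E ≫ l = φ + ψ := by
    have : (tensorRight E).IsLeftAdjoint := (tensorRightAdjunction E Eᘁ).isLeftAdjoint
    have hc := CokernelCofork.mapIsColimit _ (cokernelIsCokernel u) (tensorRight E)
    obtain ⟨l, hl⟩ := Cofork.IsColimit.desc' hc (φ + ψ) (by
      rw [zero_comp]
      exact h4)
    exact ⟨l, hl⟩
  obtain ⟨l, hl⟩ := hcol
  let h : E ⟶ 𝟙_ C := (λ_ E).inv ≫ s ▷ E ≫ l
  have hh : g ▷ E ≫ (λ_ E).hom ≫ h = φ + ψ := by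
    simp only [h, Iso.hom_inv_id_assoc]
    rw [← hl, ← hgp, comp_whiskerRight, Category.assoc]
  have h5 : E ◁ u ≫ (φ + ψ) = (2 : ℚ) • ((ρ_ E).hom ≫ g) := by
    rw [Preadditive.comp_add, hu, h1, two_smul]
  have h6 : E ◁ u ≫ (φ + ψ) = (ρ_ E).hom ≫ g ≫ u ≫ h := by
    rw [← hh, reassoc_of% key, leftUnitor_naturality_assoc, unitors_equal,
      rightUnitor_naturality_assoc]
  obtain ⟨c, hc⟩ := hU.ex (u ≫ h)
  have h7 : (2 : ℚ) • ((ρ_ E).hom ≫ g) = c • ((ρ_ E).hom ≫ g) := by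
    rw [← h5, h6, hc, Linear.comp_smul, Linear.comp_smul, Category.comp_id]
  have h8 : c = 2 := by
    have h9 : ((2 : ℚ) - c) • ((ρ_ E).hom ≫ g) = 0 := by rw [sub_smul, h7, sub_self]
    rcases smul_eq_zero.mp h9 with h10 | h10
    · linarith
    · exfalso
      apply hg
      rw [← cancel_epi (ρ_ E).hom, h10, comp_zero]
  rw [h8] at hc
  let e : E ⟶ E := 𝟙 E - (2⁻¹ : ℚ) • (h ≫ u)
  have he : u ≫ e = 0 := by
    simp only [e]
    rw [Preadditive.comp_sub, Category.comp_id, Linear.comp_smul, ← Category.assoc, hc,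
      Linear.smul_comp, smul_smul, Category.id_comp]
    norm_num
  obtain ⟨l', hl'⟩ := CokernelCofork.IsColimit.desc' (cokernelIsCokernel u) e he
  have hl2 : p ≫ l' = e := hl'
  have h9 : g ≫ (s ≫ l') ≫ g = g := by
    rw [Category.assoc, ← Category.assoc g, hgp, ← Category.assoc, hl2]
    simp only [e]
    rw [Preadditive.sub_comp, Category.id_comp, Linear.smul_comp, Category.assoc, hug, comp_zero,
      smul_zero, sub_zero]
  apply hns (s ≫ l')
  rw [← cancel_epi g, h9, Category.comp_id]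

variable {K : Type w} [Field K] (R : SuperRealisation C K)

include R in
/-- A numerically perfect symmetric pairing on an even object represents all functionals. -/
lemma represent (hU : UnitQ C) {E : C} {n : ℕ} (hE : asym (-1) E n = 0)
    (h : NumSymSelfDual hU E) (g : E ⟶ 𝟙_ C) : ∃ (φ : E ⊗ E ⟶ 𝟙_ C) (u : 𝟙_ C ⟶ E),
      (β_ E E).hom ≫ φ = φ ∧ E ◁ u ≫ φ = (ρ_ E).hom ≫ g := by
  obtain ⟨φ, ψ, h1, h2⟩ := exists_symm R hU h
  have hK : IsKimuraFinite E := by
    obtain ⟨Z, hZ⟩ : ∃ Z : C, IsZero Z := HasZeroObject.zero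
    refine ⟨E, Z, 𝟙 _, 𝟙 _, 0, 0, by simp, hZ.eq_of_src _ _, by simp,
      ⟨n, (kills_iff (by norm_num) E n).mpr hE⟩, 1, (kills_iff (by norm_num) Z 1).mpr ?_⟩
    have h3 : IsZero (tp Z 1) := by
      rw [IsZero.iff_id_eq_zero]
      change 𝟙 (𝟙_ C ⊗ Z) = 0
      rw [← MonoidalCategory.whiskerLeft_id, hZ.eq_of_src (𝟙 Z) 0,
        MonoidalPreadditive.whiskerLeft_zero]
    exact h3.eq_of_src _ _
  have h3 := nil_of_inRad R hU hK _ h2
  have h4 : IsUnit (zig φ ψ) := by
    have h5 := h3.isUnit_one_add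
    rwa [add_sub_cancel] at h5
  obtain ⟨w, hw⟩ := h4
  -- the corrected copairing
  let y : E ⟶ E := (↑w⁻¹ : End E)
  have hy : (zig φ ψ : E ⟶ E) ≫ y = 𝟙 E := by
    have h5 : (↑w⁻¹ : End E) * ↑w = 1 := Units.inv_mul w
    rw [hw] at h5
    exact h5
  refine ⟨φ, ψ ≫ E ◁ (y ≫ g) ≫ (ρ_ E).hom, h1, ?_⟩
  have h5 : g = (zig φ ψ : E ⟶ E) ≫ (y ≫ g) := by rw [← Category.assoc, hy, Category.id_comp]
  have h6 : (zig φ ψ : E ⟶ E) ≫ (y ≫ g) = (ρ_ E).inv ≫ E ◁ ψ ≫ (α_ E E E).inv ≫ φ ▷ E ≫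
      (λ_ E).hom ≫ (y ≫ g) := by
    change ((ρ_ E).inv ≫ E ◁ ψ ≫ (α_ E E E).inv ≫ φ ▷ E ≫ (λ_ E).hom) ≫ (y ≫ g) = _
    simp only [Category.assoc]
  have h7 : g = (ρ_ E).inv ≫ E ◁ (ψ ≫ E ◁ (y ≫ g) ≫ (ρ_ E).hom) ≫ φ := by
    conv_lhs => rw [h5, h6]
    rw [← leftUnitor_naturality, ← whisker_exchange_assoc]
    congr 1
    simp only [MonoidalCategory.whiskerLeft_comp, Category.assoc]
    congr 1
    rw [unitors_equal, rightUnitor_naturality]
    simp
  conv_rhs => rw [h7]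
  simp

lemma aeval_comp {A : C} (z : A ⟶ 𝟙_ C) (x : End A) (hz : (x : A ⟶ A) ≫ z = z)
    (p : Polynomial ℚ) : (Polynomial.aeval x p : End A) ≫ z = p.eval 1 • z := by
  have h1 : ∀ k : ℕ, ((x ^ k : End A) : A ⟶ A) ≫ z = z := by
    intro k
    induction k with
    | zero =>
      rw [pow_zero]
      exact Category.id_comp z
    | succ k ih =>
      rw [pow_succ, End.mul_def, Category.assoc, ih, hz]
  induction p using Polynomial.induction_on' with
  | add p q hp hq =>
    rw [map_add, Polynomial.eval_add, add_smul, ← hp, ← hq]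
    exact Preadditive.add_comp _ _ _ _ _ _
  | monomial k c =>
    rw [Polynomial.aeval_monomial, Polynomial.eval_monomial, one_pow, mul_one,
      ← Algebra.smul_def]
    have h2 : ((c • x ^ k : End A) : A ⟶ A) ≫ z = c • (((x ^ k : End A) : A ⟶ A) ≫ z) :=
      Linear.smul_comp _ _ _ _ _ _
    rw [h2, h1]

/-- The endomorphism of `E` given by a natural endomorphism of the identity functor. -/
def endo (π : 𝟭 C ⟶ 𝟭 C) (E : C) : End E := π.app E

/-- On an indecomposable even object with a nonzero morphism to the unit which is fixed by `x`, the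
endomorphism `x` is unipotent. -/
lemma unipotent_of_fix (hU : UnitQ C) {E : C} {m : ℕ} (hE : asym (-1) E (m + 1) = 0)
    (hind : ∀ e : E ⟶ E, e ≫ e = e → e = 0 ∨ e = 𝟙 E) (x : End E) (g : E ⟶ 𝟙_ C) (hg : g ≠ 0)
    (hx : (x : E ⟶ E) ≫ g = g) : ∃ k : ℕ, (x - 1) ^ k = 0 := by
  obtain ⟨P, hP, hPx⟩ := exists_annihilator hU hE x
  obtain ⟨k, v, hv1, hv2, hv3⟩ := exists_fitting x P hP hPx
  refine ⟨k, ?_⟩
  have h1 := aeval_comp g x hx v
  rw [hv3, one_smul] at h1
  rcases hind (Polynomial.aeval x v : End E) hv1 with h2 | h2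
  · exfalso
    apply hg
    rw [← h1, h2, zero_comp]
  · have h3 : (Polynomial.aeval x v : End E) = 1 := h2
    rwa [h3, mul_one] at hv2

include R in
/-- If the indecomposable even objects with nonzero morphisms to the unit are numerically
self-dual by a symmetric pairing, then the nonzero morphisms from even objects to the unit
split. -/
theorem split_of_selfDual (hU : UnitQ C) (π : 𝟭 C ⟶ 𝟭 C) (hπ : π.app (𝟙_ C) = 𝟙 (𝟙_ C))
    (hD : ∀ E : C, (∃ n, asym (-1) E n = 0) → (∀ e : E ⟶ E, e ≫ e = e → e = 0 ∨ e = 𝟙 E) →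
      (∃ k : ℕ, (endo π E - 1) ^ k = 0) →
      (∃ g : E ⟶ 𝟙_ C, g ≠ 0) → NumSymSelfDual hU E)
    {A : C} {n : ℕ} (hA : asym (-1) A n = 0) (g : A ⟶ 𝟙_ C) (hg : g ≠ 0) :
    ∃ t : 𝟙_ C ⟶ A, t ≫ g = 𝟙 _ := by
  by_contra hcon
  push Not at hcon
  classical
  have hex : ∃ n, ∃ (E : C) (g : E ⟶ 𝟙_ C), g ≠ 0 ∧ (∀ t : 𝟙_ C ⟶ E, t ≫ g ≠ 𝟙 _) ∧
      asym (-1) E n = 0 := ⟨n, A, g, hg, hcon, hA⟩
  obtain ⟨E, g, hg, hns, hE⟩ := Nat.find_spec hex
  have h2 : Nat.find hex ≠ 0 := by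
    intro h3
    rw [h3, asym_zero] at hE
    exact hU.ne hE
  obtain ⟨m, hm⟩ : ∃ m, Nat.find hex = m + 1 := ⟨Nat.find hex - 1, by omega⟩
  rw [hm] at hE
  have hmin : ∀ (S : C) (g' : S ⟶ 𝟙_ C), g' ≠ 0 → asym (-1) S m = 0 → ∃ t, t ≫ g' = 𝟙 _ := by
    intro S g' hg' hS
    by_contra h0
    push Not at h0
    exact Nat.find_min hex (m := m) (by omega) ⟨S, g', hg', h0, hS⟩
  have hind : ∀ e : E ⟶ E, e ≫ e = e → e = 0 ∨ e = 𝟙 E := by
    have key : ∀ e : E ⟶ E, e ≫ e = e → e ≠ 𝟙 E → e ≫ g = 0 := by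
      intro e he he1
      obtain ⟨S, i, r, hir, hri⟩ := IsIdempotentComplete.idempotents_split E e he
      have hi : Mono i := mono_of_mono_fac hir
      have hni : ¬ Epi i := by
        intro hepi
        apply he1
        rw [← cancel_epi i, ← hri, ← Category.assoc, hir, Category.id_comp, Category.comp_id]
      have hS := kill_sub hU i hni hE
      by_contra h0
      have h1 : i ≫ g ≠ 0 := by
        intro h1
        apply h0
        rw [← hri, Category.assoc, h1, comp_zero]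
      obtain ⟨t, ht⟩ := hmin S (i ≫ g) h1 hS
      exact hns (t ≫ i) (by rw [Category.assoc, ht])
    intro e he
    by_contra h0
    push Not at h0
    have h1 := key e he h0.2
    have h2 := key (𝟙 E - e) (by
      rw [Preadditive.sub_comp, Preadditive.comp_sub, Preadditive.comp_sub, he]
      simp) (by
      intro h3
      apply h0.1
      rwa [sub_eq_self] at h3)
    apply hg
    rw [Preadditive.sub_comp, h1, Category.id_comp, sub_zero] at h2
    exact h2
  have hfix : (endo π E : E ⟶ E) ≫ g = g := by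
    have h1 := π.naturality g
    change g ≫ π.app (𝟙_ C) = π.app E ≫ g at h1
    rw [hπ] at h1
    exact h1.symm.trans (Category.comp_id g)
  obtain ⟨φ, u, h3, h4⟩ := represent R hU hE (hD E ⟨_, hE⟩ hind
    (unipotent_of_fix hU hE hind _ g hg hfix) ⟨g, hg⟩) g
  exact core hU hE g hg hns hmin φ h3 u h4

end

end Pool.Agent.X279.AB
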