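import Pool.Agent.X279.AB.Dual2

/-!
# Self-duality and numerical equivalence: the equivalence
-/

set_option autoImplicit false
set_option linter.unusedSectionVars false
set_option linter.unusedSimpArgs false

open CategoryTheory Limits MonoidalCategory
open Pool.Agent.Y112.SR Pool.Agent.Y112.KD Pool.Agent.X264.KF
open Pool.Agent.Y116.MT (tr)

namespace Pool.Agent.X279.AB

universe v u w

section

variable {C : Type u} [Category.{v} C] [Abelian C] [Linear ℚ C] [MonoidalCategory C]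
  [MonoidalPreadditive C] [MonoidalLinear ℚ C] [SymmetricCategory C] [RightRigidCategory C]

lemma kf_of_even {E : C} {n : ℕ} (hE : asym (-1) E n = 0) : IsKimuraFinite E := by
  obtain ⟨Z, hZ⟩ : ∃ Z : C, IsZero Z := HasZeroObject.zero
  refine ⟨E, Z, 𝟙 _, 𝟙 _, 0, 0, by simp, hZ.eq_of_src _ _, by simp,
    ⟨n, (kills_iff (by norm_num) E n).mpr hE⟩, 1, (kills_iff (by norm_num) Z 1).mpr ?_⟩
  have h3 : IsZero (tp Z 1) := by
    rw [IsZero.iff_id_eq_zero]
    change 𝟙 (𝟙_ C ⊗ Z) = 0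
    rw [← MonoidalCategory.whiskerLeft_id, hZ.eq_of_src (𝟙 Z) 0,
      MonoidalPreadditive.whiskerLeft_zero]
  exact h3.eq_of_src _ _

lemma selfDual_of_iso (hU : UnitQ C) {E : C} (g : E ⟶ 𝟙_ C) (t : 𝟙_ C ⟶ E) (htg : t ≫ g = 𝟙 _)
    (hgt : g ≫ t = 𝟙 E) : NumSymSelfDual hU E := by
  refine ⟨(g ⊗ₘ g) ≫ (λ_ _).hom, (λ_ _).inv ≫ (t ⊗ₘ t), fun c => ?_, fun γ => ?_⟩
  · rw [← BraidedCategory.braiding_naturality_assoc, braiding_leftUnitor, ← unitors_equal]
  · have h1 : (zig ((g ⊗ₘ g) ≫ (λ_ _).hom) ((λ_ _).inv ≫ (t ⊗ₘ t)) : E ⟶ E) = 𝟙 E := by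
      have h2 : t ≫ (zig ((g ⊗ₘ g) ≫ (λ_ _).hom) ((λ_ _).inv ≫ (t ⊗ₘ t)) : E ⟶ E) ≫ g =
          𝟙 (𝟙_ C) := by
        change t ≫ ((ρ_ E).inv ≫ E ◁ ((λ_ _).inv ≫ (t ⊗ₘ t)) ≫ (α_ E E E).inv ≫
          ((g ⊗ₘ g) ≫ (λ_ _).hom) ▷ E ≫ (λ_ E).hom) ≫ g = _
        have h3 : t ≫ (ρ_ E).inv = (ρ_ _).inv ≫ t ▷ (𝟙_ C) := rightUnitor_inv_naturality _
        have h4 : t ▷ (𝟙_ C) ≫ E ◁ ((λ_ _).inv ≫ (t ⊗ₘ t)) =
            (𝟙_ C) ◁ (λ_ _).inv ≫ (t ⊗ₘ (t ⊗ₘ t)) := by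
          rw [MonoidalCategory.whiskerLeft_comp, ← whisker_exchange_assoc,
            MonoidalCategory.tensorHom_def t (t ⊗ₘ t)]
        have h5 : (t ⊗ₘ (t ⊗ₘ t)) ≫ (α_ E E E).inv = (α_ _ _ _).inv ≫ ((t ⊗ₘ t) ⊗ₘ t) :=
          associator_inv_naturality _ _ _
        have h6 : ((t ⊗ₘ t) ⊗ₘ t) ≫ ((g ⊗ₘ g) ≫ (λ_ _).hom) ▷ E ≫ (λ_ E).hom ≫ g =
            ((λ_ _).hom) ▷ (𝟙_ C) ≫ (λ_ _).hom := by
          rw [← leftUnitor_naturality, ← Category.assoc (((g ⊗ₘ g) ≫ (λ_ _).hom) ▷ E),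
            ← MonoidalCategory.tensorHom_def, ← Category.assoc, tensorHom_comp_tensorHom,
            tensorHom_comp_tensorHom_assoc, htg, id_tensorHom_id, Category.id_comp,
            tensorHom_id]
        simp only [Category.assoc]
        rw [reassoc_of% h3, reassoc_of% h4, reassoc_of% h5, h6]
        monoidal
      calc (zig ((g ⊗ₘ g) ≫ (λ_ _).hom) ((λ_ _).inv ≫ (t ⊗ₘ t)) : E ⟶ E) =
          g ≫ (t ≫ (zig ((g ⊗ₘ g) ≫ (λ_ _).hom) ((λ_ _).inv ≫ (t ⊗ₘ t)) : E ⟶ E) ≫ g) ≫ t := by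
            simp only [Category.assoc]
            rw [hgt, Category.comp_id, reassoc_of% hgt]
        _ = 𝟙 E := by rw [h2, Category.id_comp, hgt]
    have h3 : zig ((g ⊗ₘ g) ≫ (λ_ _).hom) ((λ_ _).inv ≫ (t ⊗ₘ t)) = (1 : End E) := h1
    rw [h3, sub_self, zero_mul, map_zero]

/-- Rational and numerical equivalence coincide for the morphisms from Kimura-finite objects to the
unit: the numerically trivial ones vanish. -/
def RatEqNum (C : Type u) [Category.{v} C] [Abelian C] [Linear ℚ C] [MonoidalCategory C]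
    [SymmetricCategory C] : Prop :=
  ∀ M : C, IsKimuraFinite M → ∀ g : M ⟶ 𝟙_ C, (∀ f : 𝟙_ C ⟶ M, f ≫ g = 0) → g = 0

/-- `π` is a natural endomorphism of the identity functor (for motives over a finite field the
Frobenius endomorphism). Each indecomposable object `E` which is killed by an exterior power, on
which `π` is unipotent and which has a nonzero morphism to the unit carries, modulo numerical
equivalence, a perfect symmetric pairing. -/
def SymmetricDualities (hU : UnitQ C) (π : 𝟭 C ⟶ 𝟭 C) : Prop :=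
  ∀ E : C, (∃ n, Kills (-1) E n) → (∀ e : E ⟶ E, e ≫ e = e → e = 0 ∨ e = 𝟙 E) →
    (∃ k : ℕ, (endo π E - 1) ^ k = 0) → (∃ g : E ⟶ 𝟙_ C, g ≠ 0) →
    NumSymSelfDual hU E

variable {K : Type w} [Field K] (R : SuperRealisation C K)

include R in
theorem ratEqNum_iff (hU : UnitQ C) (π : 𝟭 C ⟶ 𝟭 C) (hπ : π.app (𝟙_ C) = 𝟙 (𝟙_ C)) :
    RatEqNum C ↔ SymmetricDualities hU π := by
  constructor
  · intro h E hE hind _ hg
    obtain ⟨n, hn⟩ := hE
    obtain ⟨g, hg⟩ := hg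
    have hK := kf_of_even ((kills_iff (by norm_num) E n).mp hn)
    have h1 : ∃ f : 𝟙_ C ⟶ E, f ≫ g ≠ 0 := by
      by_contra h0
      push Not at h0
      exact hg (h E hK g h0)
    obtain ⟨f, hf⟩ := h1
    obtain ⟨c, hc⟩ := scale hU f g hf
    have h2 : (g ≫ (c • f)) ≫ (g ≫ (c • f)) = g ≫ (c • f) := by
      rw [Category.assoc, ← Category.assoc (c • f), hc, Category.id_comp]
    rcases hind _ h2 with h3 | h3
    · exfalso
      apply hg
      have h4 : (g ≫ (c • f)) ≫ g = g := by rw [Category.assoc, hc, Category.comp_id]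
      rw [← h4, h3, zero_comp]
    · exact selfDual_of_iso hU g (c • f) hc h3
  · intro hD M hM g hg
    obtain ⟨A, B, i, r, j, s, h1, h2, h3, ⟨n, h4⟩, ⟨m, h5⟩⟩ := hM
    have h6 := (kills_iff (by norm_num) A n).mp h4
    have h7 := (kills_iff (by norm_num) B m).mp h5
    have h8 : i ≫ g = 0 := by
      by_contra h0
      obtain ⟨t, ht⟩ := split_of_selfDual R hU π hπ
        (fun E ⟨n, hn⟩ => hD E ⟨n, (kills_iff (by norm_num) E n).mpr hn⟩) h6 (i ≫ g) h0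
      apply hU.ne
      rw [← ht, ← Category.assoc, hg]
    have h9 : j ≫ g = 0 := eq_zero_of_odd' hU h7 _
    rw [← Category.id_comp g, ← h3, Preadditive.add_comp, Category.assoc, Category.assoc, h8, h9,
      comp_zero, comp_zero, add_zero]

end

end Pool.Agent.X279.AB
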