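import Mathlib

/-!
# Abelianness and Frobenius extensions with split unit and counit
-/

set_option autoImplicit false

open CategoryTheory Limits

namespace Pool.Agent.X279.AB

universe v u v' u'

/-- Every morphism has a kernel and a cokernel, and the canonical map from the coimage to the image
is always an isomorphism. -/
def IsAb (C : Type u) [Category.{v} C] [Preadditive C] : Prop :=
  ∃ (_ : HasKernels C) (_ : HasCokernels C), ∀ (X Y : C) (f : X ⟶ Y),
    IsIso (Abelian.coimageImageComparison f)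

section

variable {C : Type u} [Category.{v} C] [Preadditive C] [IsIdempotentComplete C]

lemma hasKernel_of_retract {X Y X' Y' : C} (f : X ⟶ Y) (g : X' ⟶ Y') (i1 : X ⟶ X') (r1 : X' ⟶ X)
    (i2 : Y ⟶ Y') (r2 : Y' ⟶ Y) (h1 : i1 ≫ r1 = 𝟙 X) (h2 : i2 ≫ r2 = 𝟙 Y)
    (hi : i1 ≫ g = f ≫ i2) (hr : g ≫ r2 = r1 ≫ f) [HasKernel g] : HasKernel f := by
  let k := kernel.ι g
  have hk : k ≫ g = 0 := kernel.condition g
  have he0 : (k ≫ r1 ≫ i1) ≫ g = 0 := by
    rw [Category.assoc, Category.assoc, hi, ← Category.assoc r1, ← hr, Category.assoc,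
      ← Category.assoc, hk, zero_comp]
  let e : kernel g ⟶ kernel g := kernel.lift g (k ≫ r1 ≫ i1) he0
  have he : e ≫ k = k ≫ r1 ≫ i1 := kernel.lift_ι _ _ _
  have hee : e ≫ e = e := by
    rw [← cancel_mono k, Category.assoc, he, ← Category.assoc, he]
    simp only [Category.assoc]
    rw [← Category.assoc i1 r1, h1, Category.id_comp]
  obtain ⟨K0, a, b, hab, hba⟩ := IsIdempotentComplete.idempotents_split _ e hee
  have hae : a ≫ e = a := by rw [← hba, ← Category.assoc, hab, Category.id_comp]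
  have ha : Mono a := mono_of_mono_fac hab
  have hκ : (a ≫ k ≫ r1) ≫ f = 0 := by
    rw [Category.assoc, Category.assoc, ← hr, ← Category.assoc k, hk, zero_comp, comp_zero]
  have hκi : (a ≫ k ≫ r1) ≫ i1 = a ≫ k := by
    rw [Category.assoc, Category.assoc, ← he, ← Category.assoc, hae]
  refine ⟨⟨⟨KernelFork.ofι (a ≫ k ≫ r1) hκ, KernelFork.IsLimit.ofι _ hκ
    (fun t ht => kernel.lift g (t ≫ i1) (by rw [Category.assoc, hi, ← Category.assoc, ht,
      zero_comp]) ≫ b) (fun t ht => ?_) (fun t ht m hm => ?_)⟩⟩⟩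
  · have h3 : kernel.lift g (t ≫ i1) (by rw [Category.assoc, hi, ← Category.assoc, ht,
      zero_comp]) ≫ k = t ≫ i1 := kernel.lift_ι _ _ _
    have h4 : (kernel.lift g (t ≫ i1) (by rw [Category.assoc, hi, ← Category.assoc, ht,
      zero_comp]) ≫ b) ≫ a ≫ k ≫ r1 = (kernel.lift g (t ≫ i1) (by rw [Category.assoc, hi,
      ← Category.assoc, ht, zero_comp]) ≫ k) ≫ r1 ≫ i1 ≫ r1 := by
      rw [Category.assoc, ← Category.assoc b, hba, ← Category.assoc e, he]
      simp only [Category.assoc]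
    rw [h4, h3, Category.assoc, ← Category.assoc i1 r1, h1, Category.id_comp, Category.comp_id]
  · rw [← cancel_mono a, Category.assoc, hba, ← cancel_mono k, Category.assoc, Category.assoc, he,
      ← Category.assoc (kernel.lift g _ _), kernel.lift_ι]
    rw [← hκi, ← Category.assoc, hm, Category.assoc, ← Category.assoc i1, h1, Category.id_comp]

lemma hasCokernel_of_retract {X Y X' Y' : C} (f : X ⟶ Y) (g : X' ⟶ Y') (i1 : X ⟶ X')
    (r1 : X' ⟶ X) (i2 : Y ⟶ Y') (r2 : Y' ⟶ Y) (h1 : i1 ≫ r1 = 𝟙 X) (h2 : i2 ≫ r2 = 𝟙 Y)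
    (hi : i1 ≫ g = f ≫ i2) (hr : g ≫ r2 = r1 ≫ f) [HasCokernel g] : HasCokernel f := by
  let k := cokernel.π g
  have hk : g ≫ k = 0 := cokernel.condition g
  have he0 : g ≫ (r2 ≫ i2 ≫ k) = 0 := by
    rw [← Category.assoc, hr, Category.assoc, ← Category.assoc f, ← hi, Category.assoc, hk,
      comp_zero, comp_zero]
  let e : cokernel g ⟶ cokernel g := cokernel.desc g (r2 ≫ i2 ≫ k) he0
  have he : k ≫ e = r2 ≫ i2 ≫ k := cokernel.π_desc _ _ _
  have hee : e ≫ e = e := by
    rw [← cancel_epi k, ← Category.assoc, he, Category.assoc, Category.assoc, he,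
      ← Category.assoc i2, h2, Category.id_comp]
  obtain ⟨K0, a, b, hab, hba⟩ := IsIdempotentComplete.idempotents_split _ e hee
  have heb : e ≫ b = b := by rw [← hba, Category.assoc, hab, Category.comp_id]
  have hb : Epi b := epi_of_epi_fac hab
  have hκ : f ≫ (i2 ≫ k ≫ b) = 0 := by
    rw [← Category.assoc, ← hi, Category.assoc, ← Category.assoc g, hk, zero_comp, comp_zero]
  have hκi : r2 ≫ (i2 ≫ k ≫ b) = k ≫ b := by
    have h3 : r2 ≫ i2 ≫ k ≫ b = (r2 ≫ i2 ≫ k) ≫ b := by simp only [Category.assoc]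
    rw [h3, ← he, Category.assoc, heb]
  refine ⟨⟨⟨CokernelCofork.ofπ (i2 ≫ k ≫ b) hκ, CokernelCofork.IsColimit.ofπ _ hκ
    (fun t ht => a ≫ cokernel.desc g (r2 ≫ t) (by rw [← Category.assoc, hr, Category.assoc, ht,
      comp_zero])) (fun t ht => ?_) (fun t ht m hm => ?_)⟩⟩⟩
  · have h3 : k ≫ cokernel.desc g (r2 ≫ t) (by rw [← Category.assoc, hr, Category.assoc, ht,
      comp_zero]) = r2 ≫ t := cokernel.π_desc _ _ _
    have h4 : (i2 ≫ k ≫ b) ≫ a ≫ cokernel.desc g (r2 ≫ t) (by rw [← Category.assoc, hr,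
      Category.assoc, ht, comp_zero]) = i2 ≫ r2 ≫ i2 ≫ k ≫ cokernel.desc g (r2 ≫ t)
        (by rw [← Category.assoc, hr, Category.assoc, ht, comp_zero]) := by
      simp only [Category.assoc]
      rw [← Category.assoc b, hba, ← Category.assoc k, he]
      simp only [Category.assoc]
    rw [h4, h3, ← Category.assoc i2 r2, h2, Category.id_comp, ← Category.assoc i2 r2, h2,
      Category.id_comp]
  · rw [← cancel_epi b, ← Category.assoc b a, hba, ← cancel_epi k, ← Category.assoc k e, he]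
    simp only [Category.assoc]
    rw [cokernel.π_desc, ← Category.assoc i2 r2, h2, Category.id_comp, ← hm]
    have h5 : k ≫ b ≫ m = (k ≫ b) ≫ m := by simp only [Category.assoc]
    rw [h5, ← hκi]
    simp only [Category.assoc]
    rw [← Category.assoc i2 r2, h2, Category.id_comp]

end

section

variable {C : Type u} [Category.{v} C] [Preadditive C] [IsIdempotentComplete C]
  {D : Type u'} [Category.{v'} D] [Preadditive D]

lemma isIso_of_retract {F : C ⥤ D} {U : D ⥤ C} (i : 𝟭 C ⟶ F ⋙ U) (r : F ⋙ U ⟶ 𝟭 C)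
    (hir : ∀ X : C, i.app X ≫ r.app X = 𝟙 X) {X Y : C} (c : X ⟶ Y) (h : IsIso (F.map c)) :
    IsIso c := by
  have hi : i.app X ≫ U.map (F.map c) = c ≫ i.app Y := (i.naturality c).symm
  have hr : U.map (F.map c) ≫ r.app Y = r.app X ≫ c := r.naturality c
  refine ⟨⟨i.app Y ≫ U.map (inv (F.map c)) ≫ r.app X, ?_, ?_⟩⟩
  · rw [← Category.assoc, ← hi, Category.assoc, ← Category.assoc (U.map _), ← U.map_comp,
      IsIso.hom_inv_id, U.map_id, Category.id_comp, hir]
  · rw [Category.assoc, Category.assoc, ← hr, ← Category.assoc (U.map _), ← U.map_comp,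
      IsIso.inv_hom_id, U.map_id, Category.id_comp, hir]

theorem isAb_of (F : C ⥤ D) (U : D ⥤ C) [F.Additive] [U.Additive] (adj1 : F ⊣ U) (adj2 : U ⊣ F)
    (i : 𝟭 C ⟶ F ⋙ U) (r : F ⋙ U ⟶ 𝟭 C) (hir : i ≫ r = 𝟙 _) (h : IsAb D) : IsAb C := by
  obtain ⟨hk, hc, hiso⟩ := h
  have hF1 : PreservesLimitsOfSize.{0, 0} F := adj2.rightAdjoint_preservesLimits
  have hF2 : PreservesColimitsOfSize.{0, 0} F := adj1.leftAdjoint_preservesColimits
  have hU1 : PreservesLimitsOfSize.{0, 0} U := adj1.rightAdjoint_preservesLimits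
  have hU2 : PreservesColimitsOfSize.{0, 0} U := adj2.leftAdjoint_preservesColimits
  have hir' : ∀ X : C, i.app X ≫ r.app X = 𝟙 X := fun X => by
    have := congrArg (fun t => t.app X) hir
    simpa using this
  have hi : ∀ {X Y : C} (f : X ⟶ Y), i.app X ≫ U.map (F.map f) = f ≫ i.app Y := fun f =>
    (i.naturality f).symm
  have hr : ∀ {X Y : C} (f : X ⟶ Y), U.map (F.map f) ≫ r.app Y = r.app X ≫ f := fun f =>
    r.naturality f
  have hKC : HasKernels C := ⟨fun {X Y} f => by
    have : HasKernel (U.map (F.map f)) := by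
      have e := KernelFork.mapIsLimit _ (kernelIsKernel (F.map f)) U
      exact ⟨⟨⟨_, e⟩⟩⟩
    exact hasKernel_of_retract f (U.map (F.map f)) (i.app X) (r.app X) (i.app Y) (r.app Y)
      (hir' X) (hir' Y) (hi f) (hr f)⟩
  have hCC : HasCokernels C := ⟨fun {X Y} f => by
    have : HasCokernel (U.map (F.map f)) := by
      have e := CokernelCofork.mapIsColimit _ (cokernelIsCokernel (F.map f)) U
      exact ⟨⟨⟨_, e⟩⟩⟩
    exact hasCokernel_of_retract f (U.map (F.map f)) (i.app X) (r.app X) (i.app Y) (r.app Y)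
      (hir' X) (hir' Y) (hi f) (hr f)⟩
  refine ⟨hKC, hCC, fun X Y f => ?_⟩
  have h1 := Abelian.PreservesCoimage.hom_coimageImageComparison F f
  have h2 := hiso _ _ (F.map f)
  have h3 : IsIso (F.map (Abelian.coimageImageComparison f)) := by
    have h4 : F.map (Abelian.coimageImageComparison f) =
        (Abelian.PreservesCoimage.iso F f).hom ≫ Abelian.coimageImageComparison (F.map f) ≫
          (Abelian.PreservesImage.iso F f).inv := by
      rw [← Category.assoc, h1, Category.assoc, Iso.hom_inv_id, Category.comp_id]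
    rw [h4]
    infer_instance
  exact isIso_of_retract i r hir' _ h3

end

end Pool.Agent.X279.AB
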