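import Pool.Agent.X279.AB.Bound
import Pool.Agent.X279.KP.Nil

/-!
# The dimension bound and the case of equality
-/

set_option autoImplicit false
set_option linter.unusedSectionVars false
set_option linter.unusedSimpArgs false

open CategoryTheory Limits MonoidalCategory
open Pool.Agent.Y112.SR Pool.Agent.Y112.KD Pool.Agent.X264.KF
open Pool.Agent.Y116.MT (tr)

namespace Pool.Agent.X279.AB

universe v u w

section

variable {C : Type u} [Category.{v} C] [Preadditive C] [Linear ℚ C] [MonoidalCategory C]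
  [MonoidalPreadditive C] [MonoidalLinear ℚ C] [SymmetricCategory C] [RightRigidCategory C]

/-- The dimension of an object with a given killing number. -/
lemma trq_one_of_kill (hU : UnitQ C) {η : ℚ} (hη : η * η = 1) {A : C} {n : ℕ}
    (h : asym η A (n + 1) = 0) (h' : asym η A n ≠ 0) : trq hU A (1 : End A) = -(η * n) := by
  have hc : ∀ m : ℕ, gg η m (fun _ => (1 : End A)) = (m.factorial : ℚ) • asym η A m := by
    intro m
    rw [gg]
    have h1 : Dn m (fun _ : Fin m => (𝟙 A)) = 𝟙 _ := by
      rw [Pool.Agent.X279.KP.Dn_const, tpm_id]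
    change (m.factorial : ℚ) • (Dn m (fun _ : Fin m => (𝟙 A)) ≫ asym η A m) = _
    rw [h1, Category.id_comp]
  have h1 := ptr_gg hU hη n (fun _ : Fin (n + 1) => (1 : End A))
  rw [hc (n + 1), h, smul_zero, map_zero] at h1
  have h2 : ∀ i : Fin n, Function.update (fun _ : Fin n => (1 : End A)) i ((1 : End A) * 1) =
      fun _ => 1 := by
    intro i
    rw [mul_one]
    exact Function.update_eq_self i _
  simp only [h2] at h1
  rw [Finset.sum_const, Finset.card_univ, Fintype.card_fin, hc n, ← Nat.cast_smul_eq_nsmul ℚ,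
    smul_smul, smul_smul, smul_smul, ← add_smul] at h1
  have h3 := (smul_eq_zero.mp h1.symm).resolve_right h'
  have h4 : (n.factorial : ℚ) ≠ 0 := by positivity
  have h5 : (trq hU A (1 : End A) + η * n) * (n.factorial : ℚ) = 0 := by
    linear_combination h3
  have h6 := (mul_eq_zero.mp h5).resolve_right h4
  linarith

variable {K : Type w} [Field K] (R : SuperRealisation C K)

lemma exists_min_kill (hU : UnitQ C) {A : C} {m : ℕ} (h : asym (-1) A m = 0) :
    asym (-1) A (Module.finrank K (R.H.obj A) + 1) = 0 := by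
  have hK := R_charZero R
  classical
  have hex : ∃ m, asym (-1) A m = 0 := ⟨m, h⟩
  have h1 := Nat.find_spec hex
  have h2 : Nat.find hex ≠ 0 := by
    intro h3
    rw [h3, asym_zero] at h1
    exact hU.ne h1
  obtain ⟨n, hn⟩ : ∃ n, Nat.find hex = n + 1 := ⟨Nat.find hex - 1, by omega⟩
  have h3 : asym (-1) A n ≠ 0 := Nat.find_min hex (by omega)
  rw [hn] at h1
  have h4 := trq_one_of_kill hU (by norm_num) h1 h3
  have h5 := par_of_asym R (by norm_num) h
  have h6 := trq_one R hU (X := A) 1 (by rw [h5]; norm_num)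
  rw [h4] at h6
  have h7 : (n : ℚ) = Module.finrank K (R.H.obj A) := by linarith
  have h8 : n = Module.finrank K (R.H.obj A) := by exact_mod_cast h7
  rw [← h8]
  exact h1

end

section

variable {C : Type u} [Category.{v} C] [Abelian C] [Linear ℚ C] [MonoidalCategory C]
  [MonoidalPreadditive C] [MonoidalLinear ℚ C] [SymmetricCategory C] [RightRigidCategory C]

/-- The case of equality. -/
theorem triv_aux (hU : UnitQ C) (n : ℕ) : ∀ A : C, asym (-1) A (n + 1) = 0 →
    Module.finrank ℚ (𝟙_ C ⟶ A) = n → ∃ (z : Fin n → (𝟙_ C ⟶ A)) (w : Fin n → (A ⟶ 𝟙_ C)),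
      (∀ i j, z i ≫ w j = if i = j then 𝟙 _ else 0) ∧ ∑ i, w i ≫ z i = 𝟙 A := by
  induction n with
  | zero =>
    intro A hA _
    refine ⟨Fin.elim0, Fin.elim0, fun i => i.elim0, ?_⟩
    have h2 : 𝟙 (tp A 1) = 0 := hA
    have h3 : 𝟙 A = (λ_ A).inv ≫ 𝟙 (tp A 1) ≫ (λ_ A).hom := by
      rw [Category.id_comp]
      simp
    rw [h3, h2]
    simp
  | succ n ih =>
    intro A hA hr
    obtain ⟨z, hz⟩ : ∃ z : 𝟙_ C ⟶ A, z ≠ 0 := by
      by_contra h0
      push Not at h0
      have h1 : Subsingleton (𝟙_ C ⟶ A) := ⟨fun a b => by rw [h0 a, h0 b]⟩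
      rw [Module.finrank_zero_of_subsingleton] at hr
      omega
    have hmz := mono_of_ne_zero hU z hz
    let p := cokernel.π z
    have hzp : z ≫ p = 0 := cokernel.condition z
    have hQ := kill_quot (by norm_num) z p hzp hA
    obtain ⟨hf, hb⟩ := bound_aux hU n _ hQ
    obtain ⟨hfA, -⟩ := bound_aux hU (n + 1) _ hA
    let φ : (𝟙_ C ⟶ A) →ₗ[ℚ] (𝟙_ C ⟶ cokernel z) :=
      { toFun := fun f => f ≫ p
        map_add' := fun f g => Preadditive.add_comp _ _ _ _ _ _
        map_smul' := fun c f => Linear.smul_comp _ _ _ _ _ _ }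
    have hker : LinearMap.ker φ ≤ Submodule.span ℚ {z} := by
      intro f hf
      obtain ⟨l, hl⟩ := exists_lift_unit z f hf
      obtain ⟨q, hq⟩ := hU.ex l
      rw [Submodule.mem_span_singleton]
      exact ⟨q, by rw [← hl, hq]; simp⟩
    have hk1 : Module.finrank ℚ (LinearMap.ker φ) ≤ 1 :=
      (Submodule.finrank_mono hker).trans ((finrank_span_le_card {z}).trans (by simp))
    have h1 := LinearMap.finrank_range_add_finrank_ker φ
    have h2 := Submodule.finrank_le (LinearMap.range φ)
    have h3 : Module.finrank ℚ (LinearMap.range φ) = n := by omega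
    have h4 : Module.finrank ℚ (𝟙_ C ⟶ cokernel z) = n := by omega
    have h5 : LinearMap.range φ = ⊤ := Submodule.eq_top_of_finrank_eq (by rw [h3, h4])
    obtain ⟨z', w', hzw, hsum⟩ := ih _ hQ h4
    have hlift : ∀ j, ∃ y : 𝟙_ C ⟶ A, y ≫ p = z' j := by
      intro j
      have : z' j ∈ LinearMap.range φ := by rw [h5]; trivial
      obtain ⟨y, hy⟩ := this
      exact ⟨y, hy⟩
    choose zl hzl using hlift
    have hpw : ∀ i j, zl i ≫ p ≫ w' j = if i = j then 𝟙 _ else 0 := by
      intro i j
      rw [← Category.assoc, hzl, hzw]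
    have he : (𝟙 A - ∑ j, (p ≫ w' j) ≫ zl j) ≫ p = 0 := by
      rw [Preadditive.sub_comp, Category.id_comp, Preadditive.sum_comp, sub_eq_zero]
      have h6 : ∀ j, ((p ≫ w' j) ≫ zl j) ≫ p = p ≫ (w' j ≫ z' j) := by
        intro j
        rw [Category.assoc, hzl, Category.assoc]
      simp only [h6]
      rw [← Preadditive.comp_sum, hsum, Category.comp_id]
    obtain ⟨w0, hw0⟩ := exists_lift_unit z _ he
    have h7 : z ≫ w0 = 𝟙 _ := by
      have h8 : ∀ j, z ≫ (p ≫ w' j) ≫ zl j = 0 := by
        intro j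
        rw [Category.assoc, reassoc_of% hzp, zero_comp]
      rw [← cancel_mono z, Category.assoc, hw0, Preadditive.comp_sub, Category.comp_id,
        Preadditive.comp_sum, Finset.sum_eq_zero (fun j _ => h8 j), sub_zero, Category.id_comp]
    have h9 : ∀ j, zl j ≫ w0 = 0 := by
      intro j
      rw [← cancel_mono z, Category.assoc, hw0, Preadditive.comp_sub, Category.comp_id,
        Preadditive.comp_sum, zero_comp, sub_eq_zero]
      have h10 : ∀ i, zl j ≫ (p ≫ w' i) ≫ zl i = if j = i then zl i else 0 := by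
        intro i
        rw [← Category.assoc, hpw]
        split_ifs
        · rw [Category.id_comp]
        · rw [zero_comp]
      simp only [h10]
      simp
    refine ⟨Fin.cons z zl, Fin.cons w0 (fun j => p ≫ w' j), ?_, ?_⟩
    · intro i j
      refine Fin.cases ?_ (fun i => ?_) i
      · refine Fin.cases ?_ (fun j => ?_) j
        · simp [h7]
        · rw [Fin.cons_zero, Fin.cons_succ, reassoc_of% hzp, zero_comp,
            if_neg (Fin.succ_ne_zero j).symm]
      · refine Fin.cases ?_ (fun j => ?_) j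
        · rw [Fin.cons_zero, Fin.cons_succ, h9, if_neg (Fin.succ_ne_zero i)]
        · rw [Fin.cons_succ, Fin.cons_succ, hpw]
          simp only [Fin.succ_inj]
    · rw [Fin.sum_univ_succ]
      simp only [Fin.cons_zero, Fin.cons_succ]
      rw [hw0]
      abel

variable {K : Type w} [Field K] (R : SuperRealisation C K)

/-- the dimension of the even part of the realisation -/
noncomputable def evenDim (M : C) : ℕ :=
  Module.finrank K (LinearMap.ker ((R.par M).hom - LinearMap.id))

lemma evenDim_ge {A M : C} (i : A ⟶ M) (r : M ⟶ A) (hir : i ≫ r = 𝟙 A)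
    (hA : R.par A = (1 : K) • 𝟙 _) : Module.finrank K (R.H.obj A) ≤ evenDim R M := by
  have h0 := R.finite M
  have h1 : ∀ x : R.H.obj A, (R.H.map i).hom x ∈ LinearMap.ker ((R.par M).hom - LinearMap.id) := by
    intro x
    have h2 := R.par_natural i
    rw [hA, one_smul, Category.id_comp] at h2
    have h3 := LinearMap.congr_fun (congrArg ModuleCat.Hom.hom h2) x
    rw [LinearMap.mem_ker, LinearMap.sub_apply, LinearMap.id_apply, sub_eq_zero]
    simpa using h3
  have h4 : Function.Injective (LinearMap.codRestrict _ (R.H.map i).hom h1) := by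
    intro x y hxy
    have h5 : (R.H.map i).hom x = (R.H.map i).hom y := congrArg Subtype.val hxy
    have h6 : R.H.map i ≫ R.H.map r = 𝟙 _ := by
      rw [← Functor.map_comp, hir, CategoryTheory.Functor.map_id]
    have h7 : ∀ x, (R.H.map r).hom ((R.H.map i).hom x) = x := fun x =>
      LinearMap.congr_fun (congrArg ModuleCat.Hom.hom h6) x
    rw [← h7 x, ← h7 y, h5]
  exact LinearMap.finrank_le_finrank_of_injective h4

/-- **The dimension bound.** -/
theorem bound (hU : UnitQ C) {M : C} (hM : IsKimuraFinite M) :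
    Module.Finite ℚ (𝟙_ C ⟶ M) ∧ Module.finrank ℚ (𝟙_ C ⟶ M) ≤ evenDim R M ∧
    (Module.finrank ℚ (𝟙_ C ⟶ M) = evenDim R M →
      ∃ (z : Fin (evenDim R M) → (𝟙_ C ⟶ M)) (w : Fin (evenDim R M) → (M ⟶ 𝟙_ C)) (B : C)
        (j : B ⟶ M) (s : M ⟶ B), (∀ i j, z i ≫ w j = if i = j then 𝟙 _ else 0) ∧
        j ≫ s = 𝟙 B ∧ (∑ i, w i ≫ z i) + s ≫ j = 𝟙 M ∧ ∃ m, Kills 1 B m) := by
  obtain ⟨A, B, i, r, j, s, h1, h2, h3, ⟨n, h4⟩, ⟨m, h5⟩⟩ := hM
  have h6 := (kills_iff (by norm_num) A n).mp h4
  have h7 := (kills_iff (by norm_num) B m).mp h5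
  have h8 := exists_min_kill R hU h6
  have h9 := par_of_asym R (by norm_num) h6
  have hK := R_charZero R
  have h10 : R.par A = (1 : K) • 𝟙 _ := by rw [h9]; norm_num
  have h11 := evenDim_ge R i r h1 h10
  obtain ⟨hf, hb⟩ := bound_aux hU _ A h8
  -- the morphisms to `M` are those to `A`
  let e : (𝟙_ C ⟶ M) ≃ₗ[ℚ] (𝟙_ C ⟶ A) :=
    { toFun := fun f => f ≫ r
      map_add' := fun f g => Preadditive.add_comp _ _ _ _ _ _
      map_smul' := fun c f => Linear.smul_comp _ _ _ _ _ _
      invFun := fun g => g ≫ i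
      left_inv := fun f => by
        have h12 : f ≫ s = 0 := eq_zero_of_odd hU h7 _
        change (f ≫ r) ≫ i = f
        rw [← Category.comp_id f, ← h3, Preadditive.comp_add, Preadditive.add_comp,
          Preadditive.add_comp, reassoc_of% h12]
        simp only [Category.assoc, zero_comp, add_zero]
        rw [reassoc_of% h1]
      right_inv := fun g => by
        change (g ≫ i) ≫ r = g
        rw [Category.assoc, h1, Category.comp_id] }
  have hfM : Module.Finite ℚ (𝟙_ C ⟶ M) := Module.Finite.equiv e.symm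
  have hrM : Module.finrank ℚ (𝟙_ C ⟶ M) = Module.finrank ℚ (𝟙_ C ⟶ A) := e.finrank_eq
  refine ⟨hfM, by omega, fun heq => ?_⟩
  have h12 : Module.finrank K (R.H.obj A) = evenDim R M := by omega
  have h13 : Module.finrank ℚ (𝟙_ C ⟶ A) = evenDim R M := by omega
  rw [h12] at h8
  obtain ⟨z, w, hzw, hsum⟩ := triv_aux hU _ A h8 h13
  refine ⟨fun l => z l ≫ i, fun l => r ≫ w l, B, j, s, fun a b => ?_, h2, ?_, m, h5⟩
  · rw [Category.assoc, reassoc_of% h1, hzw]
  · have h14 : ∑ l, (r ≫ w l) ≫ z l ≫ i = r ≫ i := by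
      have h15 : ∀ l, (r ≫ w l) ≫ z l ≫ i = r ≫ (w l ≫ z l) ≫ i := by
        intro l
        simp only [Category.assoc]
      simp only [h15]
      rw [← Preadditive.comp_sum, ← Preadditive.sum_comp, hsum, Category.id_comp]
    rw [h14, h3]

end

end Pool.Agent.X279.AB
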