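import Pool.Agent.X279.AB.Sub

/-!
# Smash nilpotence in an abelian rigid symmetric monoidal category
-/

set_option autoImplicit false
set_option linter.unusedSectionVars false
set_option linter.unusedSimpArgs false

open CategoryTheory Limits MonoidalCategory
open Pool.Agent.Y112.SR Pool.Agent.Y112.KD Pool.Agent.X264.KF

namespace Pool.Agent.X279.AB

universe v u w

section

variable {C : Type u} [Category.{v} C] [Preadditive C] [Linear ℚ C] [MonoidalCategory C]
  [MonoidalPreadditive C] [MonoidalLinear ℚ C] [SymmetricCategory C] [RightRigidCategory C]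

/-- `f` is smash nilpotent: one of its tensor powers vanishes. -/
def SmashNilpotent {X Y : C} (f : X ⟶ Y) : Prop := ∃ n : ℕ, tpm f n = 0

/-- `f` is numerically trivial: all traces of `g ∘ f` vanish. -/
def NumTrivial (hU : UnitQ C) {X Y : C} (f : X ⟶ Y) : Prop :=
  ∀ g : Y ⟶ X, trq hU X (f ≫ g) = 0

end

section

variable {C : Type u} [Category.{v} C] [Abelian C] [Linear ℚ C] [MonoidalCategory C]
  [MonoidalPreadditive C] [MonoidalLinear ℚ C] [SymmetricCategory C] [RightRigidCategory C]

theorem voevodsky_iff (hU : UnitQ C) :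
    (∀ (X Y : C) (f : X ⟶ Y), NumTrivial hU f → SmashNilpotent f) ↔
      ∀ (X Y : C) (f : X ⟶ Y), NumTrivial hU f → f = 0 := by
  constructor
  · intro h X Y f hf
    obtain ⟨n, hn⟩ := h X Y f hf
    exact eq_zero_of_tpm hU f n hn
  · intro h X Y f hf
    refine ⟨1, ?_⟩
    rw [h X Y f hf]
    change (tpm (0 : X ⟶ Y) 0 ⊗ₘ (0 : X ⟶ Y)) = 0
    rw [MonoidalCategory.tensorHom_def, MonoidalPreadditive.whiskerLeft_zero, comp_zero]

end

end Pool.Agent.X279.AB
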