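import Pool.Agent.X279.AB.Main

/-!
# Subobjects and quotients in an abelian rigid symmetric monoidal category
-/

set_option autoImplicit false
set_option linter.unusedSectionVars false
set_option linter.unusedSimpArgs false

open CategoryTheory Limits MonoidalCategory
open Pool.Agent.Y112.SR Pool.Agent.Y112.KD Pool.Agent.X264.KF
open Pool.Agent.Y116.MT (tr)

namespace Pool.Agent.X279.AB

universe v u w

section

variable {C : Type u} [Category.{v} C] [MonoidalCategory C] [SymmetricCategory C]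
  [Preadditive C] [Linear ℚ C] [MonoidalPreadditive C] [MonoidalLinear ℚ C]

lemma sw_killG {Z M Q Y : C} (z : Z ⟶ M) (p : M ⟶ Q) (hzp : z ≫ p = 0) (X : C) (x : X ⟶ Y) :
    ((X ⊗ M) ◁ z) ≫ sw X M ≫ ((x ⊗ₘ p) ▷ M) = 0 := by
  have h1 : M ◁ z ≫ (β_ M M).hom = (β_ M Z).hom ≫ z ▷ M := by
    rw [BraidedCategory.braiding_naturality_right]
  have h2 : ((X ⊗ M) ◁ z) = (α_ X M Z).hom ≫ X ◁ (M ◁ z) ≫ (α_ X M M).inv := by simp
  have h3 : (α_ X M M).inv ≫ ((x ⊗ₘ p) ▷ M) = (X ◁ (p ▷ M)) ≫ (x ▷ (Q ⊗ M)) ≫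
      (α_ Y Q M).inv := by
    rw [MonoidalCategory.tensorHom_def']
    simp
  have h4 : (z ▷ M) ≫ (p ▷ M) = 0 := by
    rw [← comp_whiskerRight, hzp, MonoidalPreadditive.zero_whiskerRight]
  rw [h2, sw]
  simp only [Category.assoc, Iso.inv_hom_id_assoc]
  rw [h3, ← MonoidalCategory.whiskerLeft_comp_assoc, h1]
  have h5 : X ◁ ((β_ M Z).hom ≫ z ▷ M) ≫ X ◁ (p ▷ M) = 0 := by
    rw [← MonoidalCategory.whiskerLeft_comp, Category.assoc, h4, comp_zero,
      MonoidalPreadditive.whiskerLeft_zero]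
  rw [reassoc_of% h5]
  simp

lemma sw_killS {S M Q X Y : C} (i : S ⟶ M) (p : M ⟶ Q) (hip : i ≫ p = 0) (x : X ⟶ Y) :
    ((x ⊗ₘ i) ▷ M) ≫ sw Y M ≫ ((Y ⊗ M) ◁ p) = 0 := by
  have h1 : i ▷ M ≫ (β_ M M).hom = (β_ S M).hom ≫ M ◁ i := by
    rw [BraidedCategory.braiding_naturality_left]
  have h2 : ((x ⊗ₘ i) ▷ M) ≫ (α_ Y M M).hom = (α_ X S M).hom ≫ (x ▷ (S ⊗ M)) ≫
      (Y ◁ (i ▷ M)) := by
    rw [MonoidalCategory.tensorHom_def]
    simp
  have h3 : (α_ Y M M).inv ≫ ((Y ⊗ M) ◁ p) = Y ◁ (M ◁ p) ≫ (α_ Y M Q).inv := by simp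
  have h4 : (M ◁ i) ≫ (M ◁ p) = 0 := by
    rw [← MonoidalCategory.whiskerLeft_comp, hip, MonoidalPreadditive.whiskerLeft_zero]
  rw [sw]
  simp only [Category.assoc]
  rw [h3, reassoc_of% h2]
  have h5 : Y ◁ (i ▷ M) ≫ Y ◁ (β_ M M).hom ≫ Y ◁ (M ◁ p) = 0 := by
    rw [← MonoidalCategory.whiskerLeft_comp, ← MonoidalCategory.whiskerLeft_comp,
      reassoc_of% h1, h4, comp_zero, MonoidalPreadditive.whiskerLeft_zero]
  rw [reassoc_of% h5]
  simp

lemma asym_mul {η : ℚ} (X : C) (n : ℕ) :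
    ((n + 2 : ℕ) : ℚ) • asym η X (n + 2) = asym η X (n + 1) ▷ X +
      (η * ((n + 1 : ℕ) : ℚ)) • ((asym η X (n + 1) ▷ X) ≫ sw (tp X n) X ≫
        (asym η X (n + 1) ▷ X)) := by
  have hn : ((n + 1 : ℕ) : ℚ) + 1 ≠ 0 := by positivity
  have e1 : ((n + 2 : ℕ) : ℚ) * (((n + 1 : ℕ) : ℚ) + 1)⁻¹ = 1 := by
    rw [Nat.cast_succ (n + 1)]
    exact mul_inv_cancel₀ hn
  rw [asym_succ, smul_smul, e1, one_smul]

/-- The (anti)symmetrizer with one factor from a subobject, modulo this subobject. -/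
lemma asym_quot {η : ℚ} {Z M Q : C} (z : Z ⟶ M) (p : M ⟶ Q) (hzp : z ≫ p = 0) (n : ℕ) :
    (tp M n ◁ z) ≫ (((n + 1 : ℕ) : ℚ) • asym η M (n + 1)) ≫ (tpm p n ▷ M) =
      (tpm p n ≫ asym η Q n) ▷ Z ≫ (tp Q n ◁ z) := by
  rcases n with - | n
  · have h1 : asym η M (0 + 1) = 𝟙 _ := asym_one η M
    have h2 : ((0 + 1 : ℕ) : ℚ) = 1 := by norm_num
    rw [h1, asym_zero, h2, one_smul, Category.comp_id]
    change (tp M 0 ◁ z) ≫ 𝟙 (tp M 0 ⊗ M) ≫ (tpm p 0 ▷ M) = tpm p 0 ▷ Z ≫ (tp Q 0 ◁ z)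
    rw [Category.id_comp, whisker_exchange]
  · have h3 : ((tp M n ⊗ M) ◁ z) ≫ sw (tp M n) M ≫ (tpm p (n + 1) ▷ M) = 0 :=
      sw_killG z p hzp (tp M n) (tpm p n)
    rw [asym_mul]
    simp only [Preadditive.add_comp, Preadditive.comp_add, Linear.smul_comp, Linear.comp_smul,
      Category.id_comp, Category.assoc]
    have h1 : asym η M (n + 1) ▷ M ≫ tpm p (n + 1) ▷ M =
        tpm p (n + 1) ▷ M ≫ asym η Q (n + 1) ▷ M := by
      rw [← comp_whiskerRight, ← asym_nat, comp_whiskerRight]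
    have h2 : ((tp M (n + 1)) ◁ z) ≫ (asym η M (n + 1) ▷ M) =
        (asym η M (n + 1) ▷ Z) ≫ (tp M (n + 1) ◁ z) := by
      rw [whisker_exchange]
    have h4 : ((tp M (n + 1)) ◁ z) ≫ (asym η M (n + 1) ▷ M) ≫ sw (tp M n) M ≫
        asym η M (n + 1) ▷ M ≫ tpm p (n + 1) ▷ M = 0 := by
      rw [h1, reassoc_of% h2]
      have h6 := congrArg (fun y => y ≫ asym η Q (n + 1) ▷ M) h3
      simp only [Category.assoc, zero_comp] at h6
      have h7 : tp M (n + 1) ◁ z ≫ sw (tp M n) M ≫ tpm p (n + 1) ▷ M ≫ asym η Q (n + 1) ▷ M =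
        0 := h6
      rw [h7, comp_zero]
    rw [h4, smul_zero, add_zero, h1, ← comp_whiskerRight, whisker_exchange]

/-- The (anti)symmetrizer with all factors but one from a subobject. -/
lemma asym_sub {η : ℚ} {S M Q : C} (i : S ⟶ M) (p : M ⟶ Q) (hip : i ≫ p = 0) (n : ℕ) :
    (tpm i n ▷ M) ≫ (((n + 1 : ℕ) : ℚ) • asym η M (n + 1)) ≫ (tp M n ◁ p) =
      (tp S n ◁ p) ≫ (asym η S n ≫ tpm i n) ▷ Q := by
  rcases n with - | n
  · have h1 : asym η M (0 + 1) = 𝟙 _ := asym_one η M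
    have h2 : ((0 + 1 : ℕ) : ℚ) = 1 := by norm_num
    rw [h1, asym_zero, h2, one_smul, Category.id_comp, Category.id_comp, whisker_exchange]
  · have h3 : (tpm i (n + 1) ▷ M) ≫ sw (tp M n) M ≫ ((tp M n ⊗ M) ◁ p) = 0 :=
      sw_killS i p hip (tpm i n)
    rw [asym_mul]
    simp only [Preadditive.add_comp, Preadditive.comp_add, Linear.smul_comp, Linear.comp_smul,
      Category.id_comp, Category.assoc]
    have h1 : tpm i (n + 1) ▷ M ≫ asym η M (n + 1) ▷ M =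
        asym η S (n + 1) ▷ M ≫ tpm i (n + 1) ▷ M := by
      rw [← comp_whiskerRight, asym_nat, comp_whiskerRight]
    have h2 : (asym η M (n + 1) ▷ M) ≫ ((tp M (n + 1)) ◁ p) =
        (tp M (n + 1) ◁ p) ≫ (asym η M (n + 1) ▷ Q) := by
      rw [whisker_exchange]
    have h4 : tpm i (n + 1) ▷ M ≫ asym η M (n + 1) ▷ M ≫ sw (tp M n) M ≫
        (asym η M (n + 1) ▷ M) ≫ ((tp M (n + 1)) ◁ p) = 0 := by
      rw [h2, reassoc_of% h1]
      have h6 := congrArg (fun y => y ≫ asym η M (n + 1) ▷ Q) h3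
      simp only [Category.assoc, zero_comp] at h6
      have h7 : tpm i (n + 1) ▷ M ≫ sw (tp M n) M ≫ tp M (n + 1) ◁ p ≫ asym η M (n + 1) ▷ Q =
        0 := h6
      rw [h7, comp_zero]
    rw [h4, smul_zero, add_zero, reassoc_of% h1, ← comp_whiskerRight_assoc, whisker_exchange]

end

section

variable {C : Type u} [Category.{v} C] [Abelian C] [Linear ℚ C] [MonoidalCategory C]
  [MonoidalPreadditive C] [MonoidalLinear ℚ C] [SymmetricCategory C] [RightRigidCategory C]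

lemma coev_ne_zero {Q : C} (hQ : ¬ IsZero Q) : η_ Q Qᘁ ≠ 0 := by
  intro h
  apply hQ
  rw [IsZero.iff_id_eq_zero]
  have h1 := ExactPairing.evaluation_coevaluation Q Qᘁ
  rw [h, MonoidalPreadditive.zero_whiskerRight, zero_comp] at h1
  have h2 : 𝟙 Q = (λ_ Q).inv ≫ ((λ_ Q).hom ≫ (ρ_ Q).inv) ≫ (ρ_ Q).hom := by simp
  rw [h2, ← h1]
  simp

/-- The tensor product with a nonzero object is faithful. -/
lemma eq_zero_of_whisker (hU : UnitQ C) {X Y Q : C} (hQ : ¬ IsZero Q) (f : X ⟶ Y)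
    (h : f ▷ Q = 0) : f = 0 := by
  have h1 := mono_of_ne_zero hU _ (coev_ne_zero hQ)
  have h2 : Mono (Y ◁ η_ Q Qᘁ) := mono_left _ _
  have h3 : f ▷ (𝟙_ C) ≫ Y ◁ η_ Q Qᘁ = 0 := by
    rw [← whisker_exchange]
    have h4 : f ▷ (Q ⊗ Qᘁ) = (α_ _ _ _).inv ≫ ((f ▷ Q) ▷ Qᘁ) ≫ (α_ _ _ _).hom := by simp
    rw [h4, h]
    simp
  have h4 : f ▷ (𝟙_ C) = 0 := by
    rw [← cancel_mono (Y ◁ η_ Q Qᘁ), h3, zero_comp]
  have h5 : f = (ρ_ _).inv ≫ (f ▷ (𝟙_ C)) ≫ (ρ_ _).hom := by simp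
  rw [h5, h4]
  simp

/-- **There are no zero divisors for the tensor product of morphisms.** -/
theorem eq_zero_or_of_tensor (hU : UnitQ C) {X Y A B : C} (f : X ⟶ Y) (g : A ⟶ B)
    (h : f ⊗ₘ g = 0) : f = 0 ∨ g = 0 := by
  by_cases hg : g = 0
  · exact Or.inr hg
  left
  let I := image g
  have hI : ¬ IsZero I := by
    intro h0
    apply hg
    rw [← image.fac g, h0.eq_of_tgt (factorThruImage g) 0, zero_comp]
  apply eq_zero_of_whisker hU hI
  have h1 : Epi (X ◁ factorThruImage g) := epi_left _ _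
  have h2 : Mono (Y ◁ image.ι g) := mono_left _ _
  rw [← cancel_epi (X ◁ factorThruImage g), ← cancel_mono (Y ◁ image.ι g), comp_zero, zero_comp,
    ← h]
  conv_rhs => rw [← image.fac g]
  rw [whisker_exchange, Category.assoc, ← MonoidalCategory.whiskerLeft_comp,
    MonoidalCategory.tensorHom_def]

/-- A morphism with a vanishing tensor power vanishes. -/
theorem eq_zero_of_tpm (hU : UnitQ C) {X Y : C} (f : X ⟶ Y) (n : ℕ) (h : tpm f n = 0) : f = 0 := by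
  induction n with
  | zero => exact absurd h hU.ne
  | succ n ih =>
    rcases eq_zero_or_of_tensor hU _ _ h with h1 | h1
    · exact ih h1
    · exact h1

lemma unit_not_isZero (hU : UnitQ C) : ¬ IsZero (𝟙_ C) := fun h =>
  hU.ne ((IsZero.iff_id_eq_zero _).mp h)

/-- Nonzero morphisms to the unit are epimorphisms. -/
theorem epi_of_ne_zero (hU : UnitQ C) {M : C} (g : M ⟶ 𝟙_ C) (hg : g ≠ 0) : Epi g := by
  have h0 : cokernel.π g = 0 := by
    by_contra h1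
    have h2 := mono_of_ne_zero hU _ h1
    apply hg
    rw [← cancel_mono (cokernel.π g), cokernel.condition, zero_comp]
  rw [Preadditive.epi_iff_cancel_zero]
  intro T t ht
  obtain ⟨l, hl⟩ := CokernelCofork.IsColimit.desc' (cokernelIsCokernel g) t ht
  rw [← hl]
  change cokernel.π g ≫ l = 0
  rw [h0, zero_comp]

/-- The quotient by a nonzero subobject. -/
lemma kill_quotG (hU : UnitQ C) {η : ℚ} {Z M Q : C} (hZ : ¬ IsZero Z) (z : Z ⟶ M) [Mono z]
    (p : M ⟶ Q) [Epi p] (hzp : z ≫ p = 0) {n : ℕ} (h : asym η M (n + 1) = 0) :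
    asym η Q n = 0 := by
  have h1 := asym_quot (η := η) z p hzp n
  rw [h, smul_zero, zero_comp, comp_zero] at h1
  have h2 : Mono (tp Q n ◁ z) := mono_left _ z
  have h3 : (tpm p n ≫ asym η Q n) ▷ Z = 0 := by
    rw [← cancel_mono (tp Q n ◁ z), ← h1, zero_comp]
  have h4 := eq_zero_of_whisker hU hZ _ h3
  have h6 := epi_tpm p n
  rw [← cancel_epi (tpm p n), h4, comp_zero]

lemma mono_tpm {S M : C} (i : S ⟶ M) [Mono i] (n : ℕ) : Mono (tpm i n) := by
  induction n with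
  | zero => exact inferInstanceAs (Mono (𝟙 _))
  | succ n ih =>
    change Mono (tpm i n ⊗ₘ i)
    have h1 : Mono ((tpm i n) ▷ S) := mono_right _ _
    have h2 : Mono ((tp M n) ◁ i) := mono_left _ _
    rw [MonoidalCategory.tensorHom_def]
    infer_instance

/-- A subobject with a nonzero quotient. -/
lemma kill_subG (hU : UnitQ C) {η : ℚ} {S M Q : C} (hQ : ¬ IsZero Q) (i : S ⟶ M) [Mono i]
    (p : M ⟶ Q) [Epi p] (hip : i ≫ p = 0) {n : ℕ} (h : asym η M (n + 1) = 0) :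
    asym η S n = 0 := by
  have h1 := asym_sub (η := η) i p hip n
  rw [h, smul_zero, zero_comp, comp_zero] at h1
  have h2 : Epi (tp S n ◁ p) := epi_left _ p
  have h3 : (asym η S n ≫ tpm i n) ▷ Q = 0 := by
    rw [← cancel_epi (tp S n ◁ p), ← h1, comp_zero]
  have h4 := eq_zero_of_whisker hU hQ _ h3
  have h6 := mono_tpm i n
  rw [← cancel_mono (tpm i n), h4, zero_comp]

/-- A proper subobject. -/
lemma kill_sub (hU : UnitQ C) {η : ℚ} {S M : C} (i : S ⟶ M) [Mono i] (hi : ¬ Epi i) {n : ℕ}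
    (h : asym η M (n + 1) = 0) : asym η S n = 0 := by
  refine kill_subG hU (Q := cokernel i) ?_ i (cokernel.π i) (cokernel.condition i) h
  intro h0
  apply hi
  rw [Preadditive.epi_iff_cancel_zero]
  intro T t ht
  obtain ⟨l, hl⟩ := CokernelCofork.IsColimit.desc' (cokernelIsCokernel i) t ht
  rw [← hl, h0.eq_of_src l 0, comp_zero]

/-- subobjects -/
lemma kill_mono {η : ℚ} {S M : C} (i : S ⟶ M) [Mono i] {n : ℕ} (h : asym η M n = 0) :
    asym η S n = 0 := by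
  have h6 := mono_tpm i n
  rw [← cancel_mono (tpm i n), zero_comp, ← asym_nat, h, comp_zero]

/-- quotients -/
lemma kill_epi {η : ℚ} {Q M : C} (p : M ⟶ Q) [Epi p] {n : ℕ} (h : asym η M n = 0) :
    asym η Q n = 0 := by
  have h6 := epi_tpm p n
  rw [← cancel_epi (tpm p n), comp_zero, asym_nat, h, zero_comp]

/-- There are no nonzero morphisms from an odd object to the unit. -/
lemma eq_zero_of_odd' (hU : UnitQ C) {B : C} {m : ℕ} (h : asym 1 B m = 0) (g : B ⟶ 𝟙_ C) :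
    g = 0 := by
  by_contra hg
  have h1 := epi_of_ne_zero hU g hg
  have h2 := kill_epi g h
  exact hU.ne (eq_zero_of_odd hU h2 (𝟙 _))

end

end Pool.Agent.X279.AB
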