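import Pool.Agent.X279.KP.Main

/-!
# The unit object of an abelian rigid symmetric monoidal category
-/

set_option autoImplicit false
set_option linter.unusedSectionVars false
set_option linter.unusedSimpArgs false

open CategoryTheory Limits MonoidalCategory
open Pool.Agent.Y112.KD

namespace Pool.Agent.X279.AB

universe v u w

section

variable {C : Type u} [Category.{v} C] [MonoidalCategory C] [SymmetricCategory C]
  [RightRigidCategory C]

lemma mono_left (X : C) {U V : C} (f : U ⟶ V) [Mono f] : Mono (X ◁ f) := by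
  have : (tensorLeft X).IsRightAdjoint := (tensorLeftAdjunction X Xᘁ).isRightAdjoint
  exact inferInstanceAs (Mono ((tensorLeft X).map f))

lemma epi_right (X : C) {U V : C} (f : U ⟶ V) [Epi f] : Epi (f ▷ X) := by
  have : (tensorRight X).IsLeftAdjoint := (tensorRightAdjunction X Xᘁ).isLeftAdjoint
  exact inferInstanceAs (Epi ((tensorRight X).map f))

lemma mono_right (X : C) {U V : C} (f : U ⟶ V) [Mono f] : Mono (f ▷ X) := by
  have h := mono_left X f
  have h1 : f ▷ X = (β_ U X).hom ≫ X ◁ f ≫ (β_ V X).inv := by simp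
  rw [h1]
  infer_instance

lemma epi_left (X : C) {U V : C} (f : U ⟶ V) [Epi f] : Epi (X ◁ f) := by
  have h := epi_right X f
  have h1 : X ◁ f = (β_ X U).hom ≫ f ▷ X ≫ (β_ X V).inv := by simp
  rw [h1]
  infer_instance

end

section

variable {C : Type u} [Category.{v} C] [Abelian C] [Linear ℚ C] [MonoidalCategory C]
  [MonoidalPreadditive C] [MonoidalLinear ℚ C] [SymmetricCategory C] [RightRigidCategory C]

lemma isZero_of_whisker {X Y : C} {f : X ⟶ Y} [Epi f] [Mono f] (h : f = 0) : IsZero X := by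
  rw [IsZero.iff_id_eq_zero, ← cancel_mono f, h]
  simp

/-- **Nonzero morphisms from the unit are monomorphisms** (Deligne and Milne). -/
theorem mono_of_ne_zero (hU : UnitQ C) {M : C} (z : 𝟙_ C ⟶ M) (hz : z ≠ 0) : Mono z := by
  let K : C := kernel z
  let u' : K ⟶ 𝟙_ C := kernel.ι z
  let V : C := cokernel u'
  let p : 𝟙_ C ⟶ V := cokernel.π u'
  have hup : u' ≫ p = 0 := cokernel.condition u'
  -- `K ⊗ V = 0`
  have hKV : IsZero (K ⊗ V) := by
    have h1 : Mono (u' ▷ V) := mono_right V u'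
    have h2 : Epi (K ◁ p) := epi_left K p
    have h3 : (K ◁ p) ≫ (u' ▷ V) = 0 := by
      rw [whisker_exchange]
      have h4 : (𝟙_ C) ◁ p = (λ_ _).hom ≫ p ≫ (λ_ _).inv := by simp
      have h5 : u' ▷ (𝟙_ C) = (ρ_ _).hom ≫ u' ≫ (ρ_ _).inv := by simp
      rw [h4, h5]
      simp only [Category.assoc, unitors_equal]
      simp only [Iso.inv_hom_id_assoc]
      rw [reassoc_of% hup, zero_comp, comp_zero]
    have h6 : u' ▷ V = 0 := by
      rw [← cancel_epi (K ◁ p), h3, comp_zero]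
    rw [IsZero.iff_id_eq_zero, ← cancel_mono (u' ▷ V), h6]
    simp
  let W : C := K ⊗ Kᘁ
  have hVW : IsZero (V ⊗ W) := by
    have e : V ⊗ W ≅ (K ⊗ V) ⊗ Kᘁ := (α_ V K Kᘁ).symm ≪≫ whiskerRightIso (β_ V K) Kᘁ
    refine IsZero.of_iso ?_ e
    rw [IsZero.iff_id_eq_zero, ← id_tensorHom_id, hKV.eq_of_src (𝟙 (K ⊗ V)) 0]
    simp
  have hmono : Mono (u' ▷ W) := mono_right W u'
  have hepi : Epi (u' ▷ W) := by
    rw [Preadditive.epi_iff_cancel_zero]
    intro T g hg
    have : (tensorRight W).IsLeftAdjoint := (tensorRightAdjunction W Wᘁ).isLeftAdjoint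
    have hc := CokernelCofork.mapIsColimit _ (cokernelIsCokernel u') (tensorRight W)
    obtain ⟨l, hl⟩ := Cofork.IsColimit.desc' hc g (by
      rw [zero_comp]
      exact hg)
    rw [← hl]
    have hl0 : l = 0 := hVW.eq_of_src l 0
    rw [hl0, comp_zero]
  have hiso : IsIso (u' ▷ W) := isIso_of_mono_of_epi _
  let th : K ⊗ W ⟶ K := (β_ K W).hom ≫ (α_ K Kᘁ K).hom ≫ K ◁ ε_ K Kᘁ ≫ (ρ_ K).hom
  let rh : 𝟙_ C ⟶ K := η_ K Kᘁ ≫ (λ_ W).inv ≫ inv (u' ▷ W) ≫ th
  have h1 : (ρ_ K).inv ≫ K ◁ η_ K Kᘁ ≫ th = 𝟙 K := by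
    have h2 : K ◁ η_ K Kᘁ ≫ (β_ K W).hom = (β_ K (𝟙_ C)).hom ≫ η_ K Kᘁ ▷ K := by
      rw [BraidedCategory.braiding_naturality_right]
    change (ρ_ K).inv ≫ K ◁ η_ K Kᘁ ≫ (β_ K W).hom ≫ (α_ K Kᘁ K).hom ≫ K ◁ ε_ K Kᘁ ≫
      (ρ_ K).hom = 𝟙 K
    rw [reassoc_of% h2, ExactPairing.evaluation_coevaluation_assoc]
    simp
  have h2 : u' ≫ rh = 𝟙 K := by
    have h3 : u' ≫ η_ K Kᘁ ≫ (λ_ W).inv = (ρ_ K).inv ≫ K ◁ η_ K Kᘁ ≫ (u' ▷ W) := by
      rw [whisker_exchange]
      have h4 : (𝟙_ C) ◁ η_ K Kᘁ = (λ_ _).hom ≫ η_ K Kᘁ ≫ (λ_ _).inv := by simp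
      have h5 : u' ▷ (𝟙_ C) = (ρ_ _).hom ≫ u' ≫ (ρ_ _).inv := by simp
      rw [h4, h5]
      simp [unitors_equal]
      rfl
    have h4 : u' ≫ rh = (u' ≫ η_ K Kᘁ ≫ (λ_ W).inv) ≫ inv (u' ▷ W) ≫ th := by
      simp only [rh, Category.assoc]
    rw [h4, h3]
    simp only [Category.assoc, IsIso.hom_inv_id_assoc]
    exact h1
  obtain ⟨q, hq⟩ := hU.ex (rh ≫ u')
  have h3 : (rh ≫ u') ≫ (rh ≫ u') = rh ≫ u' := by
    rw [Category.assoc, reassoc_of% h2]
  rw [hq, Linear.smul_comp, Linear.comp_smul, Category.comp_id, smul_smul] at h3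
  have h4 : q * q = q := hU.inj h3
  have h5 : q = 0 ∨ q = 1 := by
    have : q * (q - 1) = 0 := by linear_combination h4
    rcases mul_eq_zero.mp this with h | h
    · exact Or.inl h
    · exact Or.inr (by linarith)
  rcases h5 with rfl | rfl
  · rw [zero_smul] at hq
    have h6 : u' = 0 := by
      have h7 : u' ≫ rh ≫ u' = u' := by rw [reassoc_of% h2]
      rw [← h7, hq, comp_zero]
    exact Preadditive.mono_of_kernel_zero h6
  · exfalso
    rw [one_smul] at hq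
    apply hz
    have h6 : u' ≫ z = 0 := kernel.condition z
    rw [← Category.id_comp z, ← hq, Category.assoc, h6, comp_zero]

end

end Pool.Agent.X279.AB
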